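import Pool.Agent.H514Z.AT.Plane

/-!
# Spread of a bounded function of the mean of independent identically distributed variables
-/

set_option autoImplicit false
set_option linter.unusedSectionVars false
set_option linter.style.longLine false
set_option linter.deprecated false

namespace Pool.Agent.H514Z.AT

open MeasureTheory ProbabilityTheory Filter Topology
open scoped ENNReal

/-- the test function -/
noncomputable def kt (t y : ℝ) : ℝ := y / (y ^ 2 + t ^ 2)

theorem kt_meas (t : ℝ) : Measurable (kt t) := by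
  unfold kt
  fun_prop

theorem kt_abs (t : ℝ) (ht : 1 ≤ t) (y : ℝ) : |kt t y| ≤ 1 / 2 := by
  unfold kt
  have h : 0 < y ^ 2 + t ^ 2 := by positivity
  rw [abs_div, abs_of_pos h, div_le_iff₀ h]
  nlinarith [sq_nonneg (|y| - 1), sq_abs y]

theorem kt_inv (t : ℝ) (ht : 1 ≤ t) (y : ℝ) : kt t y = y⁻¹ / (1 + (t * y⁻¹) ^ 2) := by
  unfold kt
  by_cases hy : y = 0
  · simp [hy]
  · have h : 0 < y ^ 2 + t ^ 2 := by positivity
    field_simp

theorem kt_lip (t : ℝ) (ht : 1 ≤ t) (y y' : ℝ) : |kt t y - kt t y'| ≤ min 1 |y⁻¹ - y'⁻¹| := by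
  refine le_min ?_ ?_
  · have h1 := abs_le.1 (kt_abs t ht y)
    have h2 := abs_le.1 (kt_abs t ht y')
    rw [abs_le]; constructor <;> linarith
  · rw [kt_inv t ht y, kt_inv t ht y']
    set a := y⁻¹
    set b := y'⁻¹
    have h1 : 0 < 1 + (t * a) ^ 2 := by positivity
    have h2 : 0 < 1 + (t * b) ^ 2 := by positivity
    have h3 : a / (1 + (t * a) ^ 2) - b / (1 + (t * b) ^ 2) =
        (a - b) * ((1 - (t * a) * (t * b)) / ((1 + (t * a) ^ 2) * (1 + (t * b) ^ 2))) := by
      field_simp
      ring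
    rw [h3, abs_mul]
    refine mul_le_of_le_one_right (abs_nonneg _) ?_
    rw [abs_div, abs_of_pos (mul_pos h1 h2), div_le_one (mul_pos h1 h2), abs_le]
    set x := t * a
    set z := t * b
    constructor <;> nlinarith [sq_nonneg (x + z), sq_nonneg (x - z), sq_nonneg (x * z),
      sq_nonneg (x * z - 1), sq_nonneg (x * z + 1)]

theorem kt_diff (t : ℝ) (ht : 1 ≤ t) (a b : ℝ) (hab : a ≤ b) :
    (b - a) * (-(1 / (4 * t ^ 2))) ≤ kt t b - kt t a := by
  unfold kt
  have h1 : 0 < a ^ 2 + t ^ 2 := by positivity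
  have h2 : 0 < b ^ 2 + t ^ 2 := by positivity
  have h3 : b / (b ^ 2 + t ^ 2) - a / (a ^ 2 + t ^ 2) =
      (b - a) * ((t ^ 2 - a * b) / ((a ^ 2 + t ^ 2) * (b ^ 2 + t ^ 2))) := by
    field_simp
    ring
  rw [h3]
  refine mul_le_mul_of_nonneg_left ?_ (sub_nonneg.2 hab)
  rw [← neg_div, div_le_div_iff₀ (by positivity) (mul_pos h1 h2)]
  nlinarith [sq_nonneg (a * b - t ^ 2), mul_nonneg (sq_nonneg t) (sq_nonneg (a - b)),
    sq_nonneg (t ^ 2)]

theorem kt_diff' (t : ℝ) (ht : 1 ≤ t) (a b : ℝ) (hab : a ≤ b) (ha : |a| ≤ t / 2)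
    (hb : |b| ≤ t / 2) : (b - a) * (9 / (20 * t ^ 2)) ≤ kt t b - kt t a := by
  unfold kt
  have h1 : 0 < a ^ 2 + t ^ 2 := by positivity
  have h2 : 0 < b ^ 2 + t ^ 2 := by positivity
  have h3 : b / (b ^ 2 + t ^ 2) - a / (a ^ 2 + t ^ 2) =
      (b - a) * ((t ^ 2 - a * b) / ((a ^ 2 + t ^ 2) * (b ^ 2 + t ^ 2))) := by
    field_simp
    ring
  rw [h3]
  refine mul_le_mul_of_nonneg_left ?_ (sub_nonneg.2 hab)
  rw [div_le_div_iff₀ (by positivity) (mul_pos h1 h2)]
  have ha2 : a ^ 2 ≤ t ^ 2 / 4 := by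
    have := pow_le_pow_left₀ (abs_nonneg a) ha 2
    rw [sq_abs] at this; linarith
  have hb2 : b ^ 2 ≤ t ^ 2 / 4 := by
    have := pow_le_pow_left₀ (abs_nonneg b) hb 2
    rw [sq_abs] at this; linarith
  have hab2 : a * b ≤ t ^ 2 / 4 := by nlinarith [sq_nonneg (a - b)]
  have h4 : (a ^ 2 + t ^ 2) * (b ^ 2 + t ^ 2) ≤ (5 / 4 * t ^ 2) * (5 / 4 * t ^ 2) :=
    mul_le_mul (by linarith) (by linarith) h2.le (by positivity)
  have h5 : 0 < t ^ 2 := by positivity
  nlinarith [mul_le_mul_of_nonneg_right hab2 h5.le, mul_pos h5 h5]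

theorem kappa_diff {Ω : Type} [MeasurableSpace Ω] (P : Measure Ω) [IsProbabilityMeasure P]
    (R : Ω → ℝ) (hR : Measurable R) (t r a b : ℝ) (ht : 1 ≤ t) (hab : a ≤ b)
    (ha : r + |a| ≤ t / 2) (hb : r + |b| ≤ t / 2) (hP : P.real {ω | r < |R ω|} ≤ 1 / 2) :
    (b - a) * (1 / (10 * t ^ 2)) ≤ ∫ ω, kt t (R ω + b) ∂P - ∫ ω, kt t (R ω + a) ∂P := by
  have hi : ∀ x : ℝ, Integrable (fun ω => kt t (R ω + x)) P := fun x =>
    Integrable.of_bound ((kt_meas t).comp (hR.add_const x)).aestronglyMeasurable (1 / 2)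
      (Eventually.of_forall fun ω => kt_abs t ht _)
  set S := {ω | r < |R ω|} with hS
  have hSm : MeasurableSet S := measurableSet_lt measurable_const hR.norm
  rw [← integral_sub (hi b) (hi a)]
  have h1 : ∫ ω, ((b - a) * (9 / (20 * t ^ 2)) -
      S.indicator (fun _ => (b - a) * (7 / (10 * t ^ 2))) ω) ∂P =
      (b - a) * (9 / (20 * t ^ 2)) - P.real S * ((b - a) * (7 / (10 * t ^ 2))) := by
    rw [integral_sub (integrable_const _) ((integrable_const _).indicator hSm),
      integral_indicator_const _ hSm]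
    simp
  have h2 : ∫ ω, ((b - a) * (9 / (20 * t ^ 2)) -
      S.indicator (fun _ => (b - a) * (7 / (10 * t ^ 2))) ω) ∂P ≤
      ∫ ω, (kt t (R ω + b) - kt t (R ω + a)) ∂P := by
    refine integral_mono ((integrable_const _).sub ((integrable_const _).indicator hSm))
      ((hi b).sub (hi a)) fun ω => ?_
    simp only
    by_cases hω : ω ∈ S
    · rw [Set.indicator_of_mem hω]
      have := kt_diff t ht (R ω + a) (R ω + b) (by linarith)
      have h3 : (b - a) * (9 / (20 * t ^ 2)) - (b - a) * (7 / (10 * t ^ 2)) =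
          (R ω + b - (R ω + a)) * -(1 / (4 * t ^ 2)) := by
        field_simp
        ring
      rw [h3]; exact this
    · rw [Set.indicator_of_notMem hω, sub_zero]
      have h3 : |R ω| ≤ r := not_lt.1 hω
      have := kt_diff' t ht (R ω + a) (R ω + b) (by linarith)
        ((abs_add_le _ _).trans (by linarith)) ((abs_add_le _ _).trans (by linarith))
      rwa [show R ω + b - (R ω + a) = b - a by ring] at this
  refine le_trans ?_ (h1 ▸ h2)
  have h4 : 0 ≤ (b - a) * (7 / (10 * t ^ 2)) := mul_nonneg (sub_nonneg.2 hab) (by positivity)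
  have h5 := mul_le_mul_of_nonneg_right hP h4
  have h6 : (b - a) * (1 / (10 * t ^ 2)) =
      (b - a) * (9 / (20 * t ^ 2)) - 1 / 2 * ((b - a) * (7 / (10 * t ^ 2))) := by
    field_simp
    ring
  linarith

theorem spread_of_cov {Ω : Type} [MeasurableSpace Ω] (P : Measure Ω) [IsProbabilityMeasure P]
    (k H : Ω → ℝ) (hk : Measurable k) (hH : Measurable H) (hk1 : ∀ ω, |k ω| ≤ 1) (C : ℝ)
    (hC : ∀ ω, |H ω| ≤ C) (h0 : ∫ ω, H ω ∂P = 0) (s γ : ℝ) (hs : 0 < s) (hγ : 0 < γ)
    (h2 : ∫ ω, H ω ^ 2 ∂P ≤ s) (h3 : γ ≤ ∫ ω, k ω * H ω ∂P) :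
    γ ^ 2 / s ≤ ∫ ω, ∫ ω', (k ω - k ω') ^ 2 ∂P ∂P := by
  have hb : ∀ ω ω', ‖(k ω - k ω') ^ 2‖ ≤ 4 := by
    intro ω ω'
    rw [Real.norm_eq_abs, abs_of_nonneg (sq_nonneg _)]
    have h1 := abs_le.1 (hk1 ω)
    have h2 := abs_le.1 (hk1 ω')
    nlinarith
  have hi1 : ∀ ω, Integrable (fun ω' => (k ω - k ω') ^ 2) P := fun ω =>
    Integrable.of_bound ((measurable_const.sub hk).pow_const 2).aestronglyMeasurable 4
      (Eventually.of_forall (hb ω))
  have hi2 : Integrable (fun ω => ∫ ω', (k ω - k ω') ^ 2 ∂P) P := by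
    have : Integrable (fun z : Ω × Ω => (k z.1 - k z.2) ^ 2) (P.prod P) :=
      Integrable.of_bound (((hk.comp measurable_fst).sub (hk.comp measurable_snd)).pow_const
        2).aestronglyMeasurable 4 (Eventually.of_forall fun z => hb z.1 z.2)
    exact this.integral_prod_left
  have hik : Integrable k P := Integrable.of_bound hk.aestronglyMeasurable 1
    (Eventually.of_forall hk1)
  have hiH : Integrable H P := Integrable.of_bound hH.aestronglyMeasurable C
    (Eventually.of_forall hC)
  have hiH2 : Integrable (fun ω => H ω ^ 2) P :=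
    Integrable.of_bound (hH.pow_const 2).aestronglyMeasurable (C ^ 2)
      (Eventually.of_forall fun ω => by
        rw [norm_pow]; exact pow_le_pow_left₀ (norm_nonneg _) (hC ω) 2)
  have hikH : Integrable (fun ω => k ω * H ω) P :=
    Integrable.of_bound (hk.mul hH).aestronglyMeasurable C
      (Eventually.of_forall fun ω => by
        rw [norm_mul]
        have := mul_le_mul (hk1 ω) (hC ω) (abs_nonneg _) zero_le_one
        simpa using this)
  set θ := γ / s with hθ
  have hθ0 : 0 < θ := by positivity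
  have h4 : ∀ ω, k ω * H ω - (∫ ω', k ω' ∂P) * H ω ≤
      1 / (2 * θ) * ∫ ω', (k ω - k ω') ^ 2 ∂P + θ / 2 * H ω ^ 2 := by
    intro ω
    have h5 : k ω * H ω - (∫ ω', k ω' ∂P) * H ω = ∫ ω', (k ω * H ω - k ω' * H ω) ∂P := by
      rw [integral_sub (integrable_const _) (hik.mul_const _), integral_const, integral_mul_const]
      simp
    have h6 : 1 / (2 * θ) * ∫ ω', (k ω - k ω') ^ 2 ∂P + θ / 2 * H ω ^ 2 =
        ∫ ω', (1 / (2 * θ) * (k ω - k ω') ^ 2 + θ / 2 * H ω ^ 2) ∂P := by
      rw [integral_add ((hi1 ω).const_mul _) (integrable_const _), integral_const_mul]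
      simp
    rw [h5, h6]
    refine integral_mono ((integrable_const _).sub (hik.mul_const _))
      (((hi1 ω).const_mul _).add (integrable_const _)) fun ω' => ?_
    simp only
    have h7 : 1 / (2 * θ) * (k ω - k ω') ^ 2 + θ / 2 * H ω ^ 2 - (k ω * H ω - k ω' * H ω) =
        1 / (2 * θ) * (k ω - k ω' - θ * H ω) ^ 2 := by
      field_simp
      ring
    have h8 : 0 ≤ 1 / (2 * θ) * (k ω - k ω' - θ * H ω) ^ 2 := by positivity
    linarith
  have h9 := integral_mono (hikH.sub (hiH.const_mul _)) ((hi2.const_mul _).add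
    (hiH2.const_mul _)) h4
  simp only [Pi.sub_apply, Pi.add_apply] at h9
  rw [integral_sub hikH (hiH.const_mul _), integral_add (hi2.const_mul _) (hiH2.const_mul _),
    integral_const_mul, integral_const_mul, integral_const_mul, h0] at h9
  set D := ∫ ω, ∫ ω', (k ω - k ω') ^ 2 ∂P ∂P
  have h10 : θ / 2 * ∫ ω, H ω ^ 2 ∂P ≤ γ / 2 := by
    refine (mul_le_mul_of_nonneg_left h2 (by positivity)).trans (le_of_eq ?_)
    rw [hθ]; field_simp
  have h11 : γ / 2 ≤ 1 / (2 * θ) * D := by linarith
  have h12 : γ ^ 2 / s = θ * γ := by rw [hθ]; field_simp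
  rw [h12]
  have h13 : 1 / (2 * θ) * D * (2 * θ) = D := by field_simp
  nlinarith

/-- Anti-concentration for the mean of independent variables with a common non-degenerate law. -/
theorem anti (ν : Measure ℝ) [IsProbabilityMeasure ν] (θ₁ θ₂ : ℝ) (hθ : θ₁ < θ₂)
    (h1 : 0 < ν (Set.Iic θ₁)) (h2 : 0 < ν (Set.Ici θ₂)) (τ : ℝ) (hτ : 0 < τ) :
    ∃ t γ : ℝ, 1 ≤ t ∧ 0 < γ ∧
      ∀ {Ω : Type} [MeasurableSpace Ω] (P : Measure Ω) [IsProbabilityMeasure P] (s : ℕ),
        0 < s → ∀ ξ : Fin s → Ω → ℝ, (∀ i, Measurable (ξ i)) → iIndepFun ξ P →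
        (∀ i, P.map (ξ i) = ν) → P.real {ω | τ < |(∑ i, ξ i ω) / s|} ≤ 1 / 4 →
        γ / s ≤ ∫ ω, ∫ ω', (kt t ((∑ i, ξ i ω) / s) - kt t ((∑ i, ξ i ω') / s)) ^ 2 ∂P ∂P := by
  obtain ⟨K, hK0, hK1, hK2, hK3, hKA, hKB⟩ : ∃ K : ℝ, 0 ≤ K ∧ |θ₁| ≤ K ∧ |θ₂| ≤ K ∧
      ν.real {x | K < |x|} ≤ 1 / 4 ∧ 0 < ν.real (Set.Icc (-K) θ₁) ∧ 0 < ν.real (Set.Icc θ₂ K) := by
    have hA : Tendsto (fun n : ℕ => ν (Set.Icc (-(n : ℝ)) θ₁)) atTop (𝓝 (ν (Set.Iic θ₁))) := by
      have : Set.Iic θ₁ = ⋃ n : ℕ, Set.Icc (-(n : ℝ)) θ₁ := by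
        ext x
        simp only [Set.mem_Iic, Set.mem_iUnion, Set.mem_Icc]
        refine ⟨fun h => ?_, fun ⟨_, h⟩ => h.2⟩
        obtain ⟨n, hn⟩ := exists_nat_ge (-x)
        exact ⟨n, by linarith, h⟩
      rw [this]
      exact tendsto_measure_iUnion_atTop (fun m n hmn => Set.Icc_subset_Icc_left
        (neg_le_neg (by exact_mod_cast hmn)))
    have hB : Tendsto (fun n : ℕ => ν (Set.Icc θ₂ (n : ℝ))) atTop (𝓝 (ν (Set.Ici θ₂))) := by
      have : Set.Ici θ₂ = ⋃ n : ℕ, Set.Icc θ₂ (n : ℝ) := by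
        ext x
        simp only [Set.mem_Ici, Set.mem_iUnion, Set.mem_Icc]
        refine ⟨fun h => ?_, fun ⟨_, h⟩ => h.1⟩
        obtain ⟨n, hn⟩ := exists_nat_ge x
        exact ⟨n, h, hn⟩
      rw [this]
      exact tendsto_measure_iUnion_atTop (fun m n hmn => Set.Icc_subset_Icc_right
        (by exact_mod_cast hmn))
    have hC : Tendsto (fun n : ℕ => ν {x | (n : ℝ) < |x|}) atTop (𝓝 0) := by
      have h := tendsto_measure_iInter_atTop (μ := ν) (s := fun n : ℕ => {x : ℝ | (n : ℝ) < |x|})
        (fun n => (measurableSet_lt measurable_const measurable_norm).nullMeasurableSet)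
        (fun m n hmn x hx => lt_of_le_of_lt (show (m : ℝ) ≤ n by exact_mod_cast hmn) hx) ⟨0, measure_ne_top _ _⟩
      have : (⋂ n : ℕ, {x : ℝ | (n : ℝ) < |x|}) = ∅ := by
        rw [Set.eq_empty_iff_forall_notMem]
        intro x hx
        obtain ⟨n, hn⟩ := exists_nat_ge |x|
        exact absurd (Set.mem_iInter.1 hx n) (not_lt.2 hn)
      rwa [this, measure_empty] at h
    have e1 := hA.eventually (lt_mem_nhds h1)
    have e2 := hB.eventually (lt_mem_nhds h2)
    have e3 := hC.eventually (gt_mem_nhds (show (0 : ℝ≥0∞) < ENNReal.ofReal (1 / 4) by simp))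
    have e4 := (tendsto_natCast_atTop_atTop (R := ℝ)).eventually_ge_atTop |θ₁|
    have e5 := (tendsto_natCast_atTop_atTop (R := ℝ)).eventually_ge_atTop |θ₂|
    obtain ⟨n, f1, f2, f3, f4, f5⟩ := (e1.and (e2.and (e3.and (e4.and e5)))).exists
    refine ⟨n, Nat.cast_nonneg n, f4, f5, ?_, ?_, ?_⟩
    · exact ENNReal.toReal_le_of_le_ofReal (by norm_num) f3.le
    · exact ENNReal.toReal_pos f1.ne' (measure_ne_top _ _)
    · exact ENNReal.toReal_pos f2.ne' (measure_ne_top _ _)
  set A := Set.Icc (-K) θ₁ with hA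
  set B := Set.Icc θ₂ K with hB
  have hAm : MeasurableSet A := measurableSet_Icc
  have hBm : MeasurableSet B := measurableSet_Icc
  set t := 2 * (τ + 2 * K) + 1 with ht
  have ht1 : 1 ≤ t := by linarith
  set γ := ν.real A * ν.real B * ((θ₂ - θ₁) * (1 / (10 * t ^ 2))) with hγ
  have hγ0 : 0 < γ := mul_pos (mul_pos hKA hKB) (mul_pos (sub_pos.2 hθ) (by positivity))
  refine ⟨t, γ ^ 2, ht1, by positivity, ?_⟩
  intro Ω _ P _ s hs ξ hξ hind hlaw hY
  classical
  have hs0 : (0 : ℝ) < s := by exact_mod_cast hs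
  have hs1 : (1 : ℝ) ≤ s := by exact_mod_cast hs
  set h : ℝ → ℝ := fun x => B.indicator (fun _ => ν.real A) x - A.indicator (fun _ => ν.real B) x
    with hh
  have hhm : Measurable h := (measurable_const.indicator hBm).sub (measurable_const.indicator hAm)
  have hh1 : ∀ x, |h x| ≤ 1 := by
    intro x
    have a1 : ν.real A ≤ 1 := measureReal_le_one
    have a2 : ν.real B ≤ 1 := measureReal_le_one
    rw [hh, abs_le]
    simp only [Set.indicator]
    split_ifs <;> constructor <;> linarith
  have hh0 : ∫ x, h x ∂ν = 0 := by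
    rw [hh, integral_sub ((integrable_const _).indicator hBm) ((integrable_const _).indicator hAm),
      integral_indicator_const _ hBm, integral_indicator_const _ hAm]
    simp [mul_comm]
  have hint : ∀ (i : Fin s) (g : ℝ → ℝ), Measurable g → ∫ ω, g (ξ i ω) ∂P = ∫ x, g x ∂ν := by
    intro i g hg
    rw [← hlaw i, integral_map (hξ i).aemeasurable hg.aestronglyMeasurable]
  have hhi : ∀ i, Integrable (fun ω => h (ξ i ω)) P := fun i =>
    Integrable.of_bound (hhm.comp (hξ i)).aestronglyMeasurable 1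
      (Eventually.of_forall fun ω => hh1 _)
  have hhij : ∀ i j, Integrable (fun ω => h (ξ i ω) * h (ξ j ω)) P := fun i j =>
    Integrable.of_bound ((hhm.comp (hξ i)).mul (hhm.comp (hξ j))).aestronglyMeasurable 1
      (Eventually.of_forall fun ω => by
        rw [norm_mul]
        exact mul_le_one₀ (hh1 _) (norm_nonneg _) (hh1 _))
  have hYm : Measurable (fun ω => (∑ i, ξ i ω) / s) :=
    (Finset.measurable_sum _ fun i _ => hξ i).div_const _
  refine spread_of_cov P (fun ω => kt t ((∑ i, ξ i ω) / s)) (fun ω => ∑ i, h (ξ i ω))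
    ((kt_meas t).comp hYm) (Finset.measurable_sum _ fun i _ => hhm.comp (hξ i))
    (fun ω => (kt_abs t ht1 _).trans (by norm_num)) s (fun ω => ?_) ?_ s γ hs0 hγ0 ?_ ?_
  · refine (Finset.abs_sum_le_sum_abs _ _).trans ((Finset.sum_le_sum fun i _ => hh1 _).trans ?_)
    simp
  · rw [integral_finset_sum _ fun i _ => hhi i]
    exact Finset.sum_eq_zero fun i _ => by rw [hint i h hhm, hh0]
  · have e1 : ∀ ω, (∑ i, h (ξ i ω)) ^ 2 = ∑ i, ∑ j, h (ξ i ω) * h (ξ j ω) := by
      intro ω
      rw [sq, Finset.sum_mul_sum]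
    simp only [e1]
    rw [integral_finset_sum _ fun i _ => integrable_finset_sum _ fun j _ => hhij i j]
    have e2 : ∀ i, ∫ ω, ∑ j, h (ξ i ω) * h (ξ j ω) ∂P ≤ 1 := by
      intro i
      rw [integral_finset_sum _ fun j _ => hhij i j, Finset.sum_eq_single i]
      · have := norm_integral_le_of_norm_le_const (μ := P)
          (f := fun ω => h (ξ i ω) * h (ξ i ω)) (C := 1) (Eventually.of_forall fun ω => by
            rw [norm_mul]
            exact mul_le_one₀ (hh1 _) (norm_nonneg _) (hh1 _))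
        simp only [probReal_univ, mul_one] at this
        exact (le_abs_self _).trans this
      · intro j _ hji
        have e3 : IndepFun (fun ω => h (ξ i ω)) (fun ω => h (ξ j ω)) P :=
          (hind.indepFun hji.symm).comp hhm hhm
        rw [e3.integral_fun_mul_eq_mul_integral (hhi i).1 (hhi j).1]
        have : ∫ ω, h (ξ j ω) ∂P = 0 := by rw [hint j h hhm, hh0]
        simp only [this, mul_zero]
      · intro hi; exact absurd (Finset.mem_univ i) hi
    refine (Finset.sum_le_sum fun i _ => e2 i).trans ?_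
    simp
  · have hki : ∀ i, Integrable (fun ω => kt t ((∑ i, ξ i ω) / s) * h (ξ i ω)) P := fun i =>
      Integrable.of_bound (((kt_meas t).comp hYm).mul (hhm.comp (hξ i))).aestronglyMeasurable 1
        (Eventually.of_forall fun ω => by
          rw [norm_mul]
          exact mul_le_one₀ ((kt_abs t ht1 _).trans (by norm_num)) (norm_nonneg _) (hh1 _))
    simp only [Finset.mul_sum]
    rw [integral_finset_sum _ fun i _ => hki i]
    have e2 : ∀ i, γ / s ≤ ∫ ω, kt t ((∑ i, ξ i ω) / s) * h (ξ i ω) ∂P := by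
      intro i
      set R : Ω → ℝ := fun ω => (∑ j ∈ Finset.univ.erase i, ξ j ω) / s with hR
      have hRm : Measurable R := (Finset.measurable_sum _ fun i _ => hξ i).div_const _
      have hRi : IndepFun R (ξ i) P := by
        have e3 := (hind.indepFun_finsetSum_of_notMem hξ (s := Finset.univ.erase i) (i := i)
          (Finset.notMem_erase i _)).comp (φ := fun x : ℝ => x / s) (ψ := id)
          (measurable_id.div_const _) measurable_id
        convert e3 using 1
        · funext ω
          simp [hR]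
        · rfl
      have hRY : ∀ ω, (∑ j, ξ j ω) / s = R ω + ξ i ω / s := by
        intro ω
        rw [hR, ← Finset.sum_erase_add _ _ (Finset.mem_univ i), add_div]
      have hRP : P.real {ω | τ + K < |R ω|} ≤ 1 / 2 := by
        have e4 : {ω | τ + K < |R ω|} ⊆ {ω | τ < |(∑ i, ξ i ω) / s|} ∪ {ω | K < |ξ i ω|} := by
          intro ω hω
          by_contra hcon
          simp only [Set.mem_union, Set.mem_setOf_eq, not_or, not_lt] at hcon
          have e5 : |ξ i ω / s| ≤ K := by
            rw [abs_div, Nat.abs_cast]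
            exact (div_le_self (abs_nonneg _) hs1).trans hcon.2
          have e6 : |R ω| ≤ τ + K := by
            rw [show R ω = (∑ j, ξ j ω) / s - ξ i ω / s by rw [hRY]; ring]
            exact (abs_sub _ _).trans (add_le_add hcon.1 e5)
          exact absurd hω (not_lt.2 e6)
        have e7 : P.real {ω | K < |ξ i ω|} = ν.real {x | K < |x|} := by
          have hm : MeasurableSet {x : ℝ | K < |x|} :=
            measurableSet_lt measurable_const measurable_norm
          rw [← hlaw i, map_measureReal_apply (hξ i) hm]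
          rfl
        have e8 := (measureReal_mono e4).trans (measureReal_union_le (μ := P) _ _)
        linarith
      set κ : ℝ → ℝ := fun x => ∫ ω, kt t (R ω + x / s) ∂P with hκ
      have hG : Measurable (fun z : ℝ × ℝ => kt t (z.1 + z.2 / s) * h z.2) :=
        ((kt_meas t).comp (by fun_prop)).mul (hhm.comp measurable_snd)
      have hκm : Measurable κ := by
        have : StronglyMeasurable (fun z : Ω × ℝ => kt t (R z.1 + z.2 / s)) :=
          ((kt_meas t).comp ((hRm.comp measurable_fst).add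
            (measurable_snd.div_const _))).stronglyMeasurable
        exact this.integral_prod_left'.measurable
      have hκ1 : ∀ x, |κ x| ≤ 1 / 2 := by
        intro x
        have := norm_integral_le_of_norm_le_const (μ := P)
          (f := fun ω => kt t (R ω + x / s)) (C := 1 / 2) (Eventually.of_forall fun ω =>
            kt_abs t ht1 _)
        simpa using this
      have hκd : ∀ a b, a ≤ b → |a| ≤ K → |b| ≤ K →
          (b - a) / s * (1 / (10 * t ^ 2)) ≤ κ b - κ a := by
        intro a b hab ha hb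
        have e5 : ∀ x, |x| ≤ K → τ + K + |x / s| ≤ t / 2 := by
          intro x hx
          have : |x / s| ≤ K := by
            rw [abs_div, Nat.abs_cast]
            exact (div_le_self (abs_nonneg _) hs1).trans hx
          linarith
        have := kappa_diff P R hRm t (τ + K) (a / s) (b / s) ht1
          (div_le_div_of_nonneg_right hab hs0.le) (e5 a ha) (e5 b hb) hRP
        rwa [← sub_div] at this
      have e9 := indep_fubini P R (ξ i) hRm (hξ i) hRi _ hG.stronglyMeasurable 1 (fun z => by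
        rw [norm_mul]
        exact mul_le_one₀ ((kt_abs t ht1 _).trans (by norm_num)) (norm_nonneg _) (hh1 _))
      simp only [hRY]
      rw [e9]
      simp only [integral_mul_const]
      have e10 := hint i (fun x => κ x * h x) (hκm.mul hhm)
      simp only [hκ] at e10
      rw [e10]
      have hiκ : Integrable (fun x => κ x * h x) ν :=
        Integrable.of_bound (hκm.mul hhm).aestronglyMeasurable 1
          (Eventually.of_forall fun x => by
            rw [norm_mul]
            exact mul_le_one₀ ((hκ1 _).trans (by norm_num)) (norm_nonneg _) (hh1 _))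
      have hih : Integrable h ν :=
        Integrable.of_bound hhm.aestronglyMeasurable 1 (Eventually.of_forall hh1)
      set d := ν.real A * ((θ₂ - θ₁) / s * (1 / (10 * t ^ 2))) with hd
      have e11 : ∫ x, (B.indicator (fun _ => d) x + κ θ₁ * h x) ∂ν = γ / s := by
        rw [integral_add ((integrable_const _).indicator hBm) (hih.const_mul _),
          integral_indicator_const _ hBm, integral_const_mul, hh0, hd, hγ, smul_eq_mul]
        field_simp
        ring
      rw [← e11]
      refine integral_mono (((integrable_const _).indicator hBm).add (hih.const_mul _)) hiκ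
        fun x => ?_
      change B.indicator (fun _ => d) x + κ θ₁ * h x ≤ κ x * h x
      have hnA : 0 ≤ ν.real A := measureReal_nonneg
      have hnB : 0 ≤ ν.real B := measureReal_nonneg
      have hc : 0 ≤ 1 / (10 * t ^ 2) := by positivity
      by_cases hxB : x ∈ B
      · have hxA : x ∉ A := fun hxA => by
          have := hxA.2
          have := hxB.1
          linarith
        have hx : |x| ≤ K := by
          have := abs_le.1 hK2
          exact abs_le.2 ⟨by linarith [hxB.1], hxB.2⟩
        have e12 := hκd θ₁ x (by linarith [hxB.1]) hK1 hx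
        have e13 : (θ₂ - θ₁) / s * (1 / (10 * t ^ 2)) ≤ (x - θ₁) / s * (1 / (10 * t ^ 2)) := by
          gcongr
          exact hxB.1
        simp only [hh, Set.indicator_of_mem hxB, Set.indicator_of_notMem hxA, hd]
        nlinarith [mul_le_mul_of_nonneg_left (e13.trans e12) hnA]
      · by_cases hxA : x ∈ A
        · have hx : |x| ≤ K := by
            have := abs_le.1 hK1
            exact abs_le.2 ⟨hxA.1, by linarith [hxA.2]⟩
          have e12 := hκd x θ₁ hxA.2 hx hK1
          have e13 : 0 ≤ (θ₁ - x) / s * (1 / (10 * t ^ 2)) :=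
            mul_nonneg (div_nonneg (sub_nonneg.2 hxA.2) hs0.le) hc
          simp only [hh, Set.indicator_of_mem hxA, Set.indicator_of_notMem hxB]
          nlinarith [mul_nonneg (e13.trans e12) hnB]
        · simp only [hh, Set.indicator_of_notMem hxA, Set.indicator_of_notMem hxB]
          simp
    refine le_trans (le_of_eq ?_) (Finset.sum_le_sum fun i _ => e2 i)
    simp only [Finset.sum_const, Finset.card_univ, Fintype.card_fin, nsmul_eq_mul]
    field_simp

end Pool.Agent.H514Z.AT
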