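import Mathlib

/-!
# Boole's inequality for sums of simple poles with nonnegative weights
-/

set_option autoImplicit false
set_option linter.unusedSectionVars false
set_option linter.style.longLine false
set_option linter.deprecated false

namespace Pool.Agent.H514Z.AT

open MeasureTheory Filter Topology Polynomial

theorem pole_right (S : Finset ℝ) (q : ℝ → ℝ) (b : ℝ) (hb : b ∈ S) (hq : 0 < q b) :
    Tendsto (fun E : ℝ => ∑ c ∈ S, q c * (E - c)⁻¹) (𝓝[>] b) atTop := by
  classical
  have h1 : Tendsto (fun E : ℝ => q b * (E - b)⁻¹) (𝓝[>] b) atTop := by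
    apply Tendsto.const_mul_atTop hq
    apply tendsto_inv_nhdsGT_zero.comp
    rw [tendsto_nhdsWithin_iff]
    refine ⟨?_, ?_⟩
    · have : Tendsto (fun E : ℝ => E - b) (𝓝 b) (𝓝 (b - b)) :=
        (continuous_id.sub continuous_const).tendsto b
      rw [sub_self] at this
      exact this.mono_left nhdsWithin_le_nhds
    · filter_upwards [self_mem_nhdsWithin] with E hE
      exact sub_pos.2 (Set.mem_Ioi.1 hE)
  have h2 : Tendsto (fun E : ℝ => ∑ c ∈ S.erase b, q c * (E - c)⁻¹) (𝓝[>] b)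
      (𝓝 (∑ c ∈ S.erase b, q c * (b - c)⁻¹)) := by
    apply Tendsto.mono_left _ nhdsWithin_le_nhds
    apply tendsto_finset_sum
    intro c hc
    apply Tendsto.const_mul
    apply Tendsto.inv₀
    · exact (continuous_id.sub continuous_const).tendsto b
    · exact sub_ne_zero.2 (Finset.ne_of_mem_erase hc).symm
  refine (h1.atTop_add h2).congr fun E => ?_
  rw [Finset.add_sum_erase S (fun c => q c * (E - c)⁻¹) hb]

theorem pole_left (S : Finset ℝ) (q : ℝ → ℝ) (b : ℝ) (hb : b ∈ S) (hq : 0 < q b) :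
    Tendsto (fun E : ℝ => ∑ c ∈ S, q c * (E - c)⁻¹) (𝓝[<] b) atBot := by
  classical
  have h1 : Tendsto (fun E : ℝ => q b * (E - b)⁻¹) (𝓝[<] b) atBot := by
    apply Tendsto.const_mul_atBot hq
    apply tendsto_inv_nhdsLT_zero.comp
    rw [tendsto_nhdsWithin_iff]
    refine ⟨?_, ?_⟩
    · have : Tendsto (fun E : ℝ => E - b) (𝓝 b) (𝓝 (b - b)) :=
        (continuous_id.sub continuous_const).tendsto b
      rw [sub_self] at this
      exact this.mono_left nhdsWithin_le_nhds
    · filter_upwards [self_mem_nhdsWithin] with E hE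
      exact sub_neg.2 (Set.mem_Iio.1 hE)
  have h2 : Tendsto (fun E : ℝ => ∑ c ∈ S.erase b, q c * (E - c)⁻¹) (𝓝[<] b)
      (𝓝 (∑ c ∈ S.erase b, q c * (b - c)⁻¹)) := by
    apply Tendsto.mono_left _ nhdsWithin_le_nhds
    apply tendsto_finset_sum
    intro c hc
    apply Tendsto.const_mul
    apply Tendsto.inv₀
    · exact (continuous_id.sub continuous_const).tendsto b
    · exact sub_ne_zero.2 (Finset.ne_of_mem_erase hc).symm
  refine (h1.atBot_add h2).congr fun E => ?_
  rw [Finset.add_sum_erase S (fun c => q c * (E - c)⁻¹) hb]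

theorem pole_cont (S : Finset ℝ) (q : ℝ → ℝ) (I : Set ℝ) (hI : ∀ c ∈ S, c ∉ I) :
    ContinuousOn (fun E : ℝ => ∑ c ∈ S, q c * (E - c)⁻¹) I := by
  apply continuousOn_finset_sum
  intro c hc
  apply continuousOn_const.mul
  apply ContinuousOn.inv₀ (continuousOn_id.sub continuousOn_const)
  intro E hE h
  have : E = c := sub_eq_zero.1 h
  exact hI c hc (this ▸ hE)

theorem exists_root (S : Finset ℝ) (q : ℝ → ℝ) (hq : ∀ c ∈ S, 0 < q c) (t : ℝ) (ht : 0 < t)
    (b : ℝ) (hb : b ∈ S) : ∃ r : ℝ, b < r ∧ (∀ c ∈ S, b < c → r < c) ∧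
      ∑ c ∈ S, q c * (r - c)⁻¹ = t := by
  classical
  by_cases hne : (S.filter (fun c => b < c)).Nonempty
  · set c := (S.filter (fun c => b < c)).min' hne with hc
    have hcm : c ∈ S.filter (fun c => b < c) := Finset.min'_mem _ _
    rw [Finset.mem_filter] at hcm
    have hmin : ∀ d ∈ S, b < d → c ≤ d := fun d hd hbd =>
      Finset.min'_le _ _ (Finset.mem_filter.2 ⟨hd, hbd⟩)
    have h := (isPreconnected_Ioo (a := b) (b := c)).intermediate_value_Iii
      (l₁ := 𝓝[<] c) (l₂ := 𝓝[>] b) (le_principal_iff.2 (Ioo_mem_nhdsLT hcm.2))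
      (le_principal_iff.2 (Ioo_mem_nhdsGT hcm.2))
      (pole_cont S q _ (fun d hd hm => absurd (hmin d hd hm.1) (not_le.2 hm.2)))
      (pole_left S q c hcm.1 (hq c hcm.1)) (pole_right S q b hb (hq b hb))
    obtain ⟨r, hr, hrt⟩ := h (Set.mem_univ t)
    exact ⟨r, hr.1, fun d hd hbd => lt_of_lt_of_le hr.2 (hmin d hd hbd), hrt⟩
  · have hmax : ∀ d ∈ S, ¬ b < d := fun d hd hbd => hne ⟨d, Finset.mem_filter.2 ⟨hd, hbd⟩⟩
    have h0 : Tendsto (fun E : ℝ => ∑ c ∈ S, q c * (E - c)⁻¹) atTop (𝓝 0) := by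
      have : (0 : ℝ) = ∑ c ∈ S, q c * 0 := by simp
      rw [this]
      apply tendsto_finset_sum
      intro c _
      apply Tendsto.const_mul
      exact tendsto_inv_atTop_zero.comp (tendsto_atTop_add_const_right _ (-c) tendsto_id)
    have h := (isPreconnected_Ioi (a := b)).intermediate_value_Ioi
      (l₁ := atTop) (l₂ := 𝓝[>] b) (le_principal_iff.2 (Ioi_mem_atTop b))
      (le_principal_iff.2 self_mem_nhdsWithin)
      (pole_cont S q _ (fun d hd hm => hmax d hd hm)) h0 (pole_right S q b hb (hq b hb))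
    obtain ⟨r, hr, hrt⟩ := h (Set.mem_Ioi.2 ht)
    exact ⟨r, hr, fun d hd hbd => absurd hbd (hmax d hd), hrt⟩

theorem boole_distinct (S : Finset ℝ) (q : ℝ → ℝ) (hq : ∀ c ∈ S, 0 < q c) (t : ℝ) (ht : 0 < t) :
    volume {E : ℝ | t < ∑ c ∈ S, q c * (E - c)⁻¹} ≤ ENNReal.ofReal ((∑ c ∈ S, q c) / t) := by
  classical
  rcases S.eq_empty_or_nonempty with rfl | hS
  · simp [not_lt.2 ht.le]
  have hex := exists_root S q hq t ht
  choose! r hr1 hr2 hr3 using hex
  have hinj : Set.InjOn r S := by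
    intro b hb c hc hbc
    by_contra hne
    rcases lt_or_gt_of_ne hne with h | h
    · have := hr2 b hb c hc h
      have := hr1 c hc
      linarith
    · have := hr2 c hc b hb h
      have := hr1 b hb
      linarith
  have hrS : ∀ b ∈ S, ∀ c ∈ S, r b ≠ c := by
    intro b hb c hc h
    have h1 := hr1 b hb
    rw [h] at h1
    have := hr2 b hb c hc h1
    linarith
  set A : ℝ[X] := ∏ c ∈ S, (X - C c) with hA
  set B : ℝ[X] := ∑ c ∈ S, C (q c) * ∏ d ∈ S.erase c, (X - C d) with hB
  set R : ℝ[X] := ∏ c ∈ S, (X - C (r c)) with hR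
  have hev : ∀ E : ℝ, (∀ c ∈ S, E ≠ c) →
      B.eval E = A.eval E * ∑ c ∈ S, q c * (E - c)⁻¹ := by
    intro E hE
    rw [hB, hA, eval_finset_sum, Finset.mul_sum]
    refine Finset.sum_congr rfl fun c hc => ?_
    rw [eval_mul, eval_C, eval_prod, eval_prod, ← Finset.mul_prod_erase S _ hc]
    simp only [eval_sub, eval_X, eval_C]
    have : E - c ≠ 0 := sub_ne_zero.2 (hE c hc)
    field_simp
  have hcard : 0 < S.card := Finset.card_pos.2 hS
  have hAm : A.Monic := monic_prod_X_sub_C _ _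
  have hRm : R.Monic := monic_prod_X_sub_C _ _
  have hAd : A.degree = S.card := by
    rw [hA, degree_prod]; simp [degree_X_sub_C]
  have hRd : R.degree = S.card := by
    rw [hR, degree_prod]; simp [degree_X_sub_C]
  have hBd : B.degree < S.card := by
    rw [hB]
    refine lt_of_le_of_lt (degree_sum_le _ _) ?_
    rw [Finset.sup_lt_iff (by exact WithBot.bot_lt_coe _)]
    intro c hc
    refine lt_of_le_of_lt (degree_mul_le _ _) ?_
    have h1 : (∏ d ∈ S.erase c, (X - C d) : ℝ[X]).degree = (S.erase c).card := by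
      rw [degree_prod]; simp [degree_X_sub_C]
    rw [h1, Finset.card_erase_of_mem hc]
    refine lt_of_le_of_lt (add_le_add_left degree_C_le _) ?_
    rw [zero_add]
    exact_mod_cast Nat.sub_lt hcard one_pos
  have hQ : C t * A - B = C t * R := by
    apply eq_of_degree_sub_lt_of_eval_index_eq S hinj
    · have : C t * A - B - C t * R = C t * (A - R) - B := by ring
      rw [this]
      refine lt_of_le_of_lt (degree_sub_le _ _) (max_lt ?_ hBd)
      refine lt_of_le_of_lt (degree_mul_le _ _) ?_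
      refine lt_of_le_of_lt (add_le_add_left degree_C_le _) ?_
      rw [zero_add, ← hAd]
      exact degree_sub_lt (hAd.trans hRd.symm) hAm.ne_zero (hAm.leadingCoeff.trans hRm.leadingCoeff.symm)
    · intro b hb
      have hz : R.eval (r b) = 0 := by
        rw [hR, eval_prod]
        exact Finset.prod_eq_zero hb (by simp)
      rw [eval_sub, eval_mul, eval_mul, eval_C, hev _ (hrS b hb), hr3 b hb, hz]
      ring
  have hsum : ∑ c ∈ S, (r c - c) = (∑ c ∈ S, q c) / t := by
    have h := congrArg (fun p : ℝ[X] => p.coeff (S.card - 1)) hQ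
    simp only [coeff_sub, coeff_C_mul] at h
    rw [hA, hR, prod_X_sub_C_coeff_card_pred S (fun c => c) hcard,
      prod_X_sub_C_coeff_card_pred S r hcard, hB, finset_sum_coeff] at h
    have h2 : ∑ c ∈ S, (C (q c) * ∏ d ∈ S.erase c, (X - C d) : ℝ[X]).coeff (S.card - 1) =
        ∑ c ∈ S, q c := by
      refine Finset.sum_congr rfl fun c hc => ?_
      rw [coeff_C_mul]
      have hm : (∏ d ∈ S.erase c, (X - C d) : ℝ[X]).Monic := monic_prod_X_sub_C _ _
      have hd : (∏ d ∈ S.erase c, (X - C d) : ℝ[X]).natDegree = S.card - 1 := by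
        rw [natDegree_prod_of_monic _ _ (fun d _ => monic_X_sub_C d)]
        simp [Finset.card_erase_of_mem hc]
      rw [← hd, hm.coeff_natDegree, mul_one]
    rw [h2] at h
    rw [Finset.sum_sub_distrib, eq_div_iff ht.ne']
    linarith
  have hsub : {E : ℝ | t < ∑ c ∈ S, q c * (E - c)⁻¹} ⊆ ⋃ c ∈ S, Set.Ico c (r c) := by
    intro E hE
    by_cases hES : E ∈ S
    · exact Set.mem_biUnion hES ⟨le_rfl, hr1 E hES⟩
    have hE' : ∀ c ∈ S, E ≠ c := fun c hc h => hES (h ▸ hc)
    by_contra hcon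
    have hall : ∀ c ∈ S, 0 ≤ (E - r c) * (E - c) := by
      intro c hc
      by_contra hneg
      apply hcon
      refine Set.mem_biUnion hc ?_
      have h1 := hr1 c hc
      push Not at hneg
      constructor
      · by_contra h2
        push Not at h2
        nlinarith
      · by_contra h2
        push Not at h2
        nlinarith
    have h1 := congrArg (fun p : ℝ[X] => p.eval E) hQ
    simp only [eval_sub, eval_mul, eval_C] at h1
    rw [hev E hE'] at h1
    have h2 : 0 ≤ R.eval E * A.eval E := by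
      rw [hR, hA, eval_prod, eval_prod, ← Finset.prod_mul_distrib]
      refine Finset.prod_nonneg fun c hc => ?_
      simpa using hall c hc
    have h3 : A.eval E ≠ 0 := by
      rw [hA, eval_prod]
      refine Finset.prod_ne_zero_iff.2 fun c hc => ?_
      simpa using sub_ne_zero.2 (hE' c hc)
    have h4 : 0 < A.eval E * A.eval E := mul_self_pos.2 h3
    have h5 : t < ∑ c ∈ S, q c * (E - c)⁻¹ := hE
    have h6 : A.eval E * A.eval E * (t - ∑ c ∈ S, q c * (E - c)⁻¹) = t * (R.eval E * A.eval E) := by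
      linear_combination (A.eval E) * h1
    nlinarith [mul_nonneg ht.le h2, mul_pos h4 (sub_pos.2 h5)]
  refine le_trans (measure_mono hsub) (le_trans (measure_biUnion_finset_le _ _) (le_of_eq ?_))
  rw [← hsum, ENNReal.ofReal_sum_of_nonneg (fun c hc => sub_nonneg.2 (hr1 c hc).le)]
  exact Finset.sum_congr rfl fun c _ => Real.volume_Ico

theorem boole_one {ι : Type} [Fintype ι] (p a : ι → ℝ) (hp : ∀ i, 0 ≤ p i) (hs : ∑ i, p i ≤ 1)
    (t : ℝ) (ht : 0 < t) :
    volume {E : ℝ | t < ∑ i, p i * (E - a i)⁻¹} ≤ ENNReal.ofReal (1 / t) := by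
  classical
  set T : Finset ι := Finset.univ.filter (fun i => 0 < p i) with hT
  set q : ℝ → ℝ := fun b => ∑ i ∈ T.filter (fun i => a i = b), p i with hq
  have h1 : ∀ g : ℝ → ℝ, ∑ i, p i * g (a i) = ∑ c ∈ T.image a, q c * g c := by
    intro g
    have h2 : ∑ i, p i * g (a i) = ∑ i ∈ T, p i * g (a i) := by
      rw [hT, Finset.sum_filter]
      refine Finset.sum_congr rfl fun i _ => ?_
      split_ifs with h
      · rfl
      · rw [le_antisymm (not_lt.1 h) (hp i), zero_mul]
    rw [h2, ← Finset.sum_fiberwise_of_maps_to (g := a) (t := T.image a)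
      (fun i hi => Finset.mem_image_of_mem a hi)]
    refine Finset.sum_congr rfl fun c _ => ?_
    rw [hq, Finset.sum_mul]
    refine Finset.sum_congr rfl fun i hi => ?_
    rw [(Finset.mem_filter.1 hi).2]
  have h3 := boole_distinct (T.image a) q (by
    intro c hc
    obtain ⟨i, hi, rfl⟩ := Finset.mem_image.1 hc
    exact Finset.sum_pos (fun j hj => (Finset.mem_filter.1 (Finset.mem_filter.1 hj).1).2)
      ⟨i, Finset.mem_filter.2 ⟨hi, rfl⟩⟩) t ht
  have h4 : {E : ℝ | t < ∑ i, p i * (E - a i)⁻¹} =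
      {E : ℝ | t < ∑ c ∈ T.image a, q c * (E - c)⁻¹} := by
    ext E
    simp only [Set.mem_setOf_eq]
    rw [h1 (fun c => (E - c)⁻¹)]
  rw [h4]
  refine h3.trans (ENNReal.ofReal_le_ofReal ?_)
  have h5 := h1 (fun _ => 1)
  simp only [mul_one] at h5
  rw [← h5]
  exact div_le_div_of_nonneg_right hs ht.le

/-- Boole's inequality. -/
theorem boole {ι : Type} [Fintype ι] (p a : ι → ℝ) (hp : ∀ i, 0 ≤ p i) (hs : ∑ i, p i ≤ 1)
    (t : ℝ) (ht : 0 < t) :
    volume {E : ℝ | t < |∑ i, p i * (E - a i)⁻¹|} ≤ ENNReal.ofReal (2 / t) := by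
  have h1 := boole_one p a hp hs t ht
  have h2 := boole_one p (fun i => -a i) hp hs t ht
  rw [← Measure.measure_preimage_neg] at h2
  have hsub : {E : ℝ | t < |∑ i, p i * (E - a i)⁻¹|} ⊆
      {E : ℝ | t < ∑ i, p i * (E - a i)⁻¹} ∪
        Neg.neg ⁻¹' {E : ℝ | t < ∑ i, p i * (E - -a i)⁻¹} := by
    intro E hE
    rcases lt_abs.1 (show t < |∑ i, p i * (E - a i)⁻¹| from hE) with h | h
    · exact Or.inl h
    · right
      show t < ∑ i, p i * (-E - -a i)⁻¹
      rw [← Finset.sum_neg_distrib] at h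
      refine lt_of_lt_of_eq h (Finset.sum_congr rfl fun i _ => ?_)
      rw [show -E - -a i = -(E - a i) by ring, inv_neg, mul_neg]
  refine le_trans (measure_mono hsub) (le_trans (measure_union_le _ _) ?_)
  refine le_trans (add_le_add h1 h2) (le_of_eq ?_)
  rw [← ENNReal.ofReal_add (by positivity) (by positivity)]
  congr 1
  ring

/-- The zeros of a nonempty sum of simple poles with weight one form a finite set. -/
theorem finite_zero {n : ℕ} (hn : 0 < n) (a : Fin n → ℝ) :
    {E : ℝ | ∑ i, (E - a i)⁻¹ = 0}.Finite := by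
  classical
  set B : ℝ[X] := ∑ i, ∏ j ∈ Finset.univ.erase i, (X - C (a j)) with hB
  have hev : ∀ E : ℝ, (∀ i, E ≠ a i) →
      B.eval E = (∏ i, (E - a i)) * ∑ i, (E - a i)⁻¹ := by
    intro E hE
    rw [hB, eval_finset_sum, Finset.mul_sum]
    refine Finset.sum_congr rfl fun i _ => ?_
    rw [eval_prod, ← Finset.mul_prod_erase Finset.univ _ (Finset.mem_univ i)]
    simp only [eval_sub, eval_X, eval_C]
    have : E - a i ≠ 0 := sub_ne_zero.2 (hE i)
    field_simp
  have hB0 : B ≠ 0 := by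
    intro h
    set M : ℝ := (∑ i, |a i|) + 1 with hM
    have hlt : ∀ i, a i < M := by
      intro i
      have := Finset.single_le_sum (f := fun i => |a i|) (fun i _ => abs_nonneg (a i))
        (Finset.mem_univ i)
      have := le_abs_self (a i)
      linarith
    have h1 := hev M (fun i => (hlt i).ne')
    rw [h, eval_zero] at h1
    have h2 : 0 < ∏ i, (M - a i) := Finset.prod_pos fun i _ => sub_pos.2 (hlt i)
    have h3 : 0 < ∑ i, (M - a i)⁻¹ :=
      Finset.sum_pos (fun i _ => inv_pos.2 (sub_pos.2 (hlt i))) ⟨⟨0, hn⟩, Finset.mem_univ _⟩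
    exact (mul_pos h2 h3).ne h1
  refine ((Set.finite_range a).union (B.rootSet_finite ℝ)).subset ?_
  intro E hE
  by_cases h : E ∈ Set.range a
  · exact Or.inl h
  · right
    rw [mem_rootSet]
    refine ⟨hB0, ?_⟩
    have h1 := hev E (fun i hi => h ⟨i, hi.symm⟩)
    rw [show ∑ i, (E - a i)⁻¹ = 0 from hE, mul_zero] at h1
    simpa [aeval_def] using h1

end Pool.Agent.H514Z.AT
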