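import Mathlib

/-!
# The Anderson model on an antitree: definitions
-/

set_option autoImplicit false

namespace Pool.Agent.H514Z.AT

open MeasureTheory
open scoped InnerProductSpace

/-- The vertices of the antitree with shell sizes `s`: the shell `S n` is a copy of `Fin (s n)`. -/
abbrev Vtx (s : ℕ → ℕ) : Type := (n : ℕ) × Fin (s n)

/-- The complex Hilbert space of square summable functions on the vertices. -/
abbrev L2 (s : ℕ → ℕ) : Type := lp (fun _ : Vtx s => ℂ) 2

/-- The edge weights: `1 / √(s n * s (n + 1))` between the shells `n` and `n + 1`, and `0` for all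
other pairs of vertices. -/
noncomputable def weight (s : ℕ → ℕ) (x y : Vtx s) : ℝ :=
  if y.1 = x.1 + 1 ∨ x.1 = y.1 + 1 then 1 / √((s x.1 : ℝ) * (s y.1 : ℝ)) else 0

/-- `H` is the Anderson operator with disorder `lam` and potential `v`:
`(H ψ)(x) = ∑_y a(x, y) ψ(y) + lam v(x) ψ(x)` for all `ψ` and `x`. -/
def IsAnderson (s : ℕ → ℕ) (lam : ℝ) (v : Vtx s → ℝ) (H : L2 s →L[ℂ] L2 s) : Prop :=
  ∀ (ψ : L2 s) (x : Vtx s),
    H ψ x = (∑' y : Vtx s, (weight s x y : ℂ) * ψ y) + ((lam * v x : ℝ) : ℂ) * ψ x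

/-- `μ` is the spectral measure of the vector `ψ` for the bounded self-adjoint operator `H`: a
finite Borel measure on the line with `∫ f dμ = ⟨ψ, f(H) ψ⟩` for every continuous real `f`. -/
def IsSpecMeas {E : Type} [NormedAddCommGroup E] [InnerProductSpace ℂ E] [CompleteSpace E]
    (H : E →L[ℂ] E) (ψ : E) (μ : Measure ℝ) : Prop :=
  IsFiniteMeasure μ ∧ ∀ f : ℝ → ℝ, Continuous f →
    Integrable f μ ∧ ((∫ x, f x ∂μ : ℝ) : ℂ) = ⟪ψ, (cfc f H : E →L[ℂ] E) ψ⟫_ℂ

end Pool.Agent.H514Z.AT
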