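import Pool.Agent.H514Z.AT.Tree

/-!
# The finite volume Green function controls the second column of the transfer matrix
-/

set_option autoImplicit false
set_option linter.unusedSectionVars false
set_option linter.style.longLine false
set_option linter.deprecated false

namespace Pool.Agent.H514Z.AT

open MeasureTheory Filter Topology Matrix
open scoped InnerProductSpace ENNReal

theorem resolvent_expansion {ι : Type} [Fintype ι] [DecidableEq ι] (M : Matrix ι ι ℝ)
    (hM : M.IsHermitian) (φ : ι → ℝ) (hφ : φ ⬝ᵥ φ ≤ 1) :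
    ∃ p θ : ι → ℝ, (∀ j, 0 ≤ p j) ∧ ∑ j, p j ≤ 1 ∧ ∀ E : ℝ, (∀ j, E ≠ θ j) →
      ∀ (ψ : ι → ℝ) (b : ℝ), E • ψ - M *ᵥ ψ = b • φ → φ ⬝ᵥ ψ = b * ∑ j, p j * (E - θ j)⁻¹ := by
  set e : ι → ι → ℝ := fun j => ⇑(hM.eigenvectorBasis j) with he
  have hpar : ∀ x y : ι → ℝ, x ⬝ᵥ y = ∑ j, (e j ⬝ᵥ x) * (e j ⬝ᵥ y) := by
    intro x y
    have h := hM.eigenvectorBasis.sum_inner_mul_inner (WithLp.toLp 2 x) (WithLp.toLp 2 y)
    simp only [EuclideanSpace.inner_eq_star_dotProduct, star_trivial] at h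
    rw [dotProduct_comm, ← h]
    refine Finset.sum_congr rfl fun j _ => ?_
    rw [dotProduct_comm y]
  refine ⟨fun j => (e j ⬝ᵥ φ) * (e j ⬝ᵥ φ), hM.eigenvalues, fun j => mul_self_nonneg _, ?_, ?_⟩
  · rw [← hpar]; exact hφ
  · intro E hE ψ b h
    rw [hpar, Finset.mul_sum]
    refine Finset.sum_congr rfl fun j _ => ?_
    have h1 := congrArg (fun x => e j ⬝ᵥ x) h
    have hT : Mᵀ = M := by
      have := hM.eq
      rwa [conjTranspose_eq_transpose_of_trivial] at this
    have h2 : e j ⬝ᵥ M *ᵥ ψ = hM.eigenvalues j * (e j ⬝ᵥ ψ) := by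
      rw [dotProduct_mulVec, ← mulVec_transpose, hT, he]
      simp only
      rw [hM.mulVec_eigenvectorBasis j, smul_dotProduct, smul_eq_mul]
    simp only [dotProduct_sub, dotProduct_smul, smul_eq_mul, h2] at h1
    have h3 : E - hM.eigenvalues j ≠ 0 := sub_ne_zero.2 (hE j)
    have h4 : e j ⬝ᵥ ψ = b * (e j ⬝ᵥ φ) * (E - hM.eigenvalues j)⁻¹ := by
      rw [← h1]
      field_simp
    rw [h4]
    ring

variable {s : ℕ → ℕ}

theorem green (hs : ∀ n, 0 < s n) (lam : ℝ) (v : Vtx s → ℝ) (N : ℕ) (t : ℝ) (ht : 0 < t) :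
    volume {E : ℝ | t * |(tm (Vf s lam v E) N (0, 1)).2| < |(tm (Vf s lam v E) N (1, 0)).2|} ≤
      ENNReal.ofReal (2 / t) := by
  classical
  rcases Nat.eq_zero_or_pos N with rfl | hN
  · have : {E : ℝ | t * |(tm (Vf s lam v E) 0 (0, 1)).2| < |(tm (Vf s lam v E) 0 (1, 0)).2|} = ∅ := by
      ext E
      simp [tm, ht.le]
    rw [this]; simp
  let ι : Type := (n : Fin N) × Fin (s n)
  let emb : ι → Vtx s := fun x => ⟨x.1, x.2⟩
  let c : ℕ → ℝ := fun n => (√(s n : ℝ))⁻¹
  have hcc : ∀ n, c n * c n = (s n : ℝ)⁻¹ := fun n => by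
    simp only [c]
    rw [← mul_inv, Real.mul_self_sqrt (Nat.cast_nonneg _)]
  have hw : ∀ x y : Vtx s, weight s x y =
      (if y.1 = x.1 + 1 then c x.1 * c y.1 else 0) + if x.1 = y.1 + 1 then c x.1 * c y.1 else 0 := by
    intro x y
    unfold weight
    have : 1 / √((s x.1 : ℝ) * (s y.1 : ℝ)) = c x.1 * c y.1 := by
      rw [Real.sqrt_mul (Nat.cast_nonneg _), one_div, mul_inv]
    rw [this]
    by_cases h1 : y.1 = x.1 + 1
    · rw [if_pos (Or.inl h1), if_pos h1, if_neg (by omega), add_zero]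
    · by_cases h2 : x.1 = y.1 + 1
      · rw [if_pos (Or.inr h2), if_neg h1, if_pos h2, zero_add]
      · rw [if_neg (by omega), if_neg h1, if_neg h2, add_zero]
  let M : Matrix ι ι ℝ := fun x y =>
    weight s (emb x) (emb y) + if x = y then lam * v (emb x) else 0
  have hM : M.IsHermitian := by
    ext x y
    simp only [conjTranspose_apply, star_trivial, M]
    rw [hw, hw]
    by_cases h : x = y
    · subst h; rfl
    · rw [if_neg h, if_neg (Ne.symm h), mul_comm (c (emb y).1)]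
      ring
  let φ : ι → ℝ := fun x => if (x.1 : ℕ) = 0 then c 0 else 0
  have hshell : ∀ (g : ℕ → ℝ) (f : Vtx s → ℝ), ∑ y : ι, g y.1 * f (emb y) =
      ∑ m ∈ Finset.range N, g m * ∑ i : Fin (s m), f ⟨m, i⟩ := by
    intro g f
    rw [Fintype.sum_sigma, ← Fin.sum_univ_eq_sum_range
      (fun m => g m * ∑ i : Fin (s m), f ⟨m, i⟩) N]
    refine Finset.sum_congr rfl fun m _ => ?_
    rw [Finset.mul_sum]
  have hφd : ∀ f : Vtx s → ℝ, φ ⬝ᵥ (fun y => f (emb y)) = c 0 * ∑ i : Fin (s 0), f ⟨0, i⟩ := by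
    intro f
    have := hshell (fun m => if m = 0 then c 0 else 0) f
    simp only [ite_mul, zero_mul, Finset.sum_ite_eq', Finset.mem_range, hN, if_true] at this
    rw [← this]
    simp only [dotProduct, φ, ite_mul, zero_mul]
  have hφ : φ ⬝ᵥ φ ≤ 1 := by
    have := hφd (fun y => if y.1 = 0 then c 0 else 0)
    simp only [if_true, Finset.sum_const, Finset.card_univ, Fintype.card_fin, nsmul_eq_mul] at this
    refine le_of_eq (this.trans ?_)
    have h0 : (s 0 : ℝ) ≠ 0 := by exact_mod_cast (hs 0).ne'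
    rw [mul_left_comm, hcc, mul_inv_cancel₀ h0]
  obtain ⟨p, θ, hp, hp1, hres⟩ := resolvent_expansion M hM φ hφ
  have hfin : ((Set.range θ ∪ Set.range (fun x : ι => lam * v (emb x))) ∪
      ⋃ n : Fin N, {E : ℝ | Yf s lam v E n = 0}).Finite :=
    ((Set.finite_range _).union (Set.finite_range _)).union
      (Set.finite_iUnion fun n => Yf_finite hs lam v n)
  refine le_trans (measure_mono (t := {E : ℝ | t < |∑ j, p j * (E - θ j)⁻¹|} ∪ _) ?_)
    ((measure_union_le _ _).trans (by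
      rw [hfin.measure_zero, add_zero]; exact boole p θ hp hp1 t ht))
  intro E hE
  by_contra hcon
  simp only [Set.mem_union, Set.mem_setOf_eq, Set.mem_range, Set.mem_iUnion, not_or, not_exists,
    not_lt] at hcon
  obtain ⟨hG, ⟨hθ, hv⟩, hY⟩ := hcon
  set V := Vf s lam v E with hV
  set u := (tm V N (0, 1)).2 with hu
  set w := (tm V N (1, 0)).2 with hw'
  set Z : ℕ → ℝ × ℝ := fun n => tm V n (u, -w) with hZ
  have hZN : (Z N).2 = 0 := by
    rw [hZ]
    simp only
    rw [tm_lin]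
    simp only [Prod.snd_add, Prod.smul_snd, smul_eq_mul, ← hu, ← hw']
    ring
  set f : Vtx s → ℝ := fun y => c y.1 * (V y.1 * (Z y.1).2) * (E - lam * v y)⁻¹ with hf
  have hfs : ∀ m < N, c m * ∑ i : Fin (s m), f ⟨m, i⟩ = (Z m).2 := by
    intro m hm
    have h1 : Yf s lam v E m ≠ 0 := hY ⟨m, hm⟩
    have h2 : ∑ i : Fin (s m), f ⟨m, i⟩ =
        c m * (V m * (Z m).2) * ∑ i : Fin (s m), (E - lam * v ⟨m, i⟩)⁻¹ := by
      rw [Finset.mul_sum]
    have h3 : V m * Yf s lam v E m = 1 := inv_mul_cancel₀ h1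
    unfold Yf at h3
    rw [h2]
    calc _ = (c m * c m) * (V m * ∑ i : Fin (s m), (E - lam * v ⟨m, i⟩)⁻¹) * (Z m).2 := by ring
      _ = (V m * ((∑ i : Fin (s m), (E - lam * v ⟨m, i⟩)⁻¹) / s m)) * (Z m).2 := by
        rw [hcc]; ring
      _ = _ := by rw [h3, one_mul]
  have key := hres E (fun j h => hθ j h.symm) (fun y => f (emb y)) u (by
    funext x
    obtain ⟨⟨n, hn⟩, i⟩ := x
    have h1 : E - lam * v ⟨n, i⟩ ≠ 0 := fun h => hv ⟨⟨n, hn⟩, i⟩ (sub_eq_zero.1 h).symm
    have h2 : (M *ᵥ fun y => f (emb y)) ⟨⟨n, hn⟩, i⟩ =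
        c n * ((Z (n + 1)).2 + if n = 0 then 0 else (Z n).1) + lam * v ⟨n, i⟩ * f ⟨n, i⟩ := by
      simp only [mulVec, dotProduct, M, add_mul, Finset.sum_add_distrib, ite_mul, zero_mul]
      congr 1
      swap
      · rw [Finset.sum_eq_single (⟨⟨n, hn⟩, i⟩ : ι)]
        · rw [if_pos rfl]
        · intro y _ hy
          rw [if_neg (Ne.symm hy)]
        · intro h; exact absurd (Finset.mem_univ _) h
      have h3 := hshell (fun m => (if m = n + 1 then c n * c m else 0) +
        if n = m + 1 then c n * c m else 0) f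
      simp only [hw]
      refine h3.trans ?_
      simp only [add_mul, Finset.sum_add_distrib, ite_mul, zero_mul, Finset.sum_ite_eq',
        Finset.mem_range, mul_add]
      congr 1
      · split_ifs with h4
        · rw [mul_assoc, hfs _ h4]
        · have : n + 1 = N := by omega
          rw [this, hZN, mul_zero]
      · cases n with
        | zero => simp
        | succ n =>
          simp only [add_left_inj, Finset.sum_ite_eq, Finset.mem_range]
          rw [if_pos (by omega), if_neg (by omega), mul_assoc, hfs _ (by omega)]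
          rfl
    have h4 : E * f ⟨n, i⟩ - lam * v ⟨n, i⟩ * f ⟨n, i⟩ = c n * (V n * (Z n).2) := by
      rw [← sub_mul, hf]
      simp only
      field_simp
    have h5 : (Z (n + 1)).2 = V n * (Z n).2 - (Z n).1 := rfl
    simp only [Pi.sub_apply, Pi.smul_apply, smul_eq_mul, h2, φ]
    change E * f ⟨n, i⟩ - _ = _
    split_ifs with h6
    · subst h6
      have h7 : (Z 0).1 = u := rfl
      rw [h5, h7]
      linear_combination h4
    · rw [h5]
      linear_combination h4)
  rw [hφd, hfs 0 hN] at key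
  have h8 : (Z 0).2 = -w := rfl
  have h9 : t * |u| < |w| := hE
  have h10 : |w| = |u| * |∑ j, p j * (E - θ j)⁻¹| := by
    rw [← abs_mul, ← key, h8, abs_neg]
  nlinarith [mul_le_mul_of_nonneg_left hG (abs_nonneg u)]

end Pool.Agent.H514Z.AT
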