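import Mathlib

/-!
# A one parameter group of isometries moves every vector that overlaps a wandering vector
-/

set_option autoImplicit false
set_option linter.unusedSectionVars false
set_option linter.style.longLine false
set_option linter.deprecated false

namespace Pool.Agent.H514Z.AT

open MeasureTheory Filter Topology
open scoped InnerProductSpace

theorem group_move {F : Type} [NormedAddCommGroup F] [InnerProductSpace ℝ F]
    (U : ℝ → F →ₗᵢ[ℝ] F) (hU : ∀ x y f, U (x + y) f = U x (U y f)) (h0 : ∀ f, U 0 f = f)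
    (e : F) (ρ : ℝ) (hρ : 0 < ρ) (horth : ∀ y, ρ ≤ |y| → ⟪U y e, e⟫_ℝ = 0) (δ : ℝ) (hδ : 0 < δ) :
    ∃ c : ℝ, 0 < c ∧ ∀ f : F, ‖f‖ ≤ 1 → δ ≤ ⟪f, e⟫_ℝ → ∀ x : ℝ, c * min 1 |x| ≤ ‖U x f - f‖ := by
  obtain ⟨J, hJ⟩ := exists_nat_gt (4 * ‖e‖ ^ 2 / δ ^ 2)
  have hJ0 : (0 : ℝ) < J := lt_of_le_of_lt (by positivity) hJ
  have hJ1 : 4 * ‖e‖ ^ 2 ≤ J * δ ^ 2 := by
    rw [div_lt_iff₀ (by positivity)] at hJ
    exact hJ.le
  refine ⟨δ / (2 * J * (ρ + 2) * (‖e‖ + 1)), by positivity, fun f hf hfe x => ?_⟩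
  by_cases hx : x = 0
  · simp [hx]
  have hx0 : 0 < |x| := abs_pos.2 hx
  set D := ‖U x f - f‖ with hD
  have hD0 : 0 ≤ D := norm_nonneg _
  have hm : ∀ m : ℕ, ‖U (m * x) f - f‖ ≤ m * D := by
    intro m
    induction m with
    | zero => simp [h0]
    | succ m ih =>
      have h1 : U (((m + 1 : ℕ) : ℝ) * x) f - f = U (m * x) (U x f - f) + (U (m * x) f - f) := by
        rw [map_sub, ← hU]
        push_cast
        rw [add_mul, one_mul]
        abel
      rw [h1]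
      refine (norm_add_le _ _).trans ?_
      rw [LinearIsometry.norm_map]
      push_cast
      linarith
  set k : ℕ := ⌈ρ / |x|⌉₊ with hk
  have hk1 : ρ ≤ k * |x| := by
    have := Nat.le_ceil (ρ / |x|)
    rwa [div_le_iff₀ hx0] at this
  have hk2 : (k : ℝ) * min 1 |x| ≤ ρ + 2 := by
    have h1 : (k : ℝ) < ρ / |x| + 1 := Nat.ceil_lt_add_one (by positivity)
    have h2 : ρ / |x| * min 1 |x| ≤ ρ := by
      rw [div_mul_eq_mul_div, div_le_iff₀ hx0]
      exact mul_le_mul_of_nonneg_left (min_le_right _ _) hρ.le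
    have h3 : min 1 |x| ≤ 1 := min_le_left _ _
    have h4 : 0 ≤ min 1 |x| := le_min zero_le_one hx0.le
    nlinarith
  set ee : ℕ → F := fun j => U (-((j * k : ℕ) * x)) e with hee
  have hinner : ∀ a : ℝ, ∀ g : F, ⟪g, U (-a) e⟫_ℝ = ⟪U a g, e⟫_ℝ := by
    intro a g
    rw [← (U a).inner_map_map, ← hU, add_neg_cancel, h0]
  have h1 : ∀ j ∈ Finset.range J, δ - J * k * D * ‖e‖ ≤ ⟪f, ee j⟫_ℝ := by
    intro j hj
    have hj' : (j : ℝ) ≤ J := by exact_mod_cast (Finset.mem_range.1 hj).le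
    rw [hee]
    simp only
    rw [hinner]
    have h2 : ⟪U ((j * k : ℕ) * x) f, e⟫_ℝ = ⟪f, e⟫_ℝ + ⟪U ((j * k : ℕ) * x) f - f, e⟫_ℝ := by
      rw [inner_sub_left]; ring
    have h3 := abs_real_inner_le_norm (U ((j * k : ℕ) * x) f - f) e
    have h4 := hm (j * k)
    have h5 : ‖U ((j * k : ℕ) * x) f - f‖ * ‖e‖ ≤ J * k * D * ‖e‖ := by
      refine mul_le_mul_of_nonneg_right (h4.trans ?_) (norm_nonneg _)
      push_cast
      gcongr
    have h6 := neg_abs_le ⟪U ((j * k : ℕ) * x) f - f, e⟫_ℝ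
    linarith
  have h2 : ‖∑ j ∈ Finset.range J, ee j‖ ^ 2 = J * ‖e‖ ^ 2 := by
    rw [← real_inner_self_eq_norm_sq, sum_inner]
    have : ∀ i ∈ Finset.range J, ⟪ee i, ∑ j ∈ Finset.range J, ee j⟫_ℝ = ‖e‖ ^ 2 := by
      intro i hi
      rw [inner_sum, Finset.sum_eq_single i]
      · rw [real_inner_self_eq_norm_sq, hee, LinearIsometry.norm_map]
      · intro j _ hji
        rw [hee]
        simp only
        rw [hinner, ← hU]
        apply horth
        have h3 : ((j * k : ℕ) : ℝ) * x + -(((i * k : ℕ) : ℝ) * x) = ((j : ℝ) - i) * (k * x) := by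
          push_cast; ring
        have h4 : (1 : ℝ) ≤ |(j : ℝ) - i| := by
          have : (1 : ℤ) ≤ |(j : ℤ) - i| := Int.one_le_abs (sub_ne_zero.2 (by exact_mod_cast hji))
          exact_mod_cast this
        rw [h3, abs_mul, abs_mul, Nat.abs_cast]
        nlinarith
      · intro h; exact absurd hi h
    rw [Finset.sum_congr rfl this]
    simp
  have h3 : J * (δ - J * k * D * ‖e‖) ≤ ‖∑ j ∈ Finset.range J, ee j‖ := by
    have h4 := Finset.sum_le_sum h1
    rw [← inner_sum] at h4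
    simp only [Finset.sum_const, Finset.card_range, nsmul_eq_mul] at h4
    refine h4.trans ((real_inner_le_norm _ _).trans ?_)
    exact mul_le_of_le_one_left (norm_nonneg _) hf
  have h4 : ‖∑ j ∈ Finset.range J, ee j‖ ≤ J * δ / 2 := by
    apply le_of_sq_le_sq _ (by positivity) |> fun h => h
    rw [h2]
    nlinarith
  have h5 : δ / 2 ≤ J * k * D * ‖e‖ := by
    have : J * (δ / 2) ≤ J * (J * k * D * ‖e‖) := by linarith
    exact le_of_mul_le_mul_left this hJ0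
  have h6 : 0 ≤ min 1 |x| := le_min zero_le_one hx0.le
  rw [div_mul_eq_mul_div, div_le_iff₀ (by positivity)]
  have h7 : δ * min 1 |x| ≤ 2 * J * (k * min 1 |x|) * D * ‖e‖ := by nlinarith
  have h8 : 2 * J * (k * min 1 |x|) * D * ‖e‖ ≤ 2 * J * (ρ + 2) * D * (‖e‖ + 1) := by
    gcongr
    linarith
  nlinarith

/-- Averaging a random vector of constant norm loses norm in proportion to its spread. -/
theorem avg_sq {F : Type} [NormedAddCommGroup F] [InnerProductSpace ℝ F] [CompleteSpace F]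
    {Ω : Type} [MeasurableSpace Ω] (P : Measure Ω) [IsProbabilityMeasure P] (W : Ω → F)
    (hW : Integrable W P) (r : ℝ) (hr : ∀ ω, ‖W ω‖ = r) (k : Ω → ℝ) (hk : Measurable k)
    (hk1 : ∀ ω, |k ω| ≤ 1) (c : ℝ) (hc : 0 ≤ c) (h : ∀ ω ω', c * |k ω - k ω'| ≤ ‖W ω - W ω'‖) :
    ‖∫ ω, W ω ∂P‖ ^ 2 ≤ r ^ 2 - c ^ 2 / 2 * ∫ ω, ∫ ω', (k ω - k ω') ^ 2 ∂P ∂P := by
  have hb : ∀ ω ω', ‖(k ω - k ω') ^ 2‖ ≤ 4 := by
    intro ω ω'
    rw [Real.norm_eq_abs, abs_of_nonneg (sq_nonneg _)]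
    have h1 := abs_le.1 (hk1 ω)
    have h2 := abs_le.1 (hk1 ω')
    nlinarith
  have hi1 : ∀ ω, Integrable (fun ω' => (k ω - k ω') ^ 2) P := fun ω =>
    Integrable.of_bound ((measurable_const.sub hk).pow_const 2).aestronglyMeasurable 4
      (Eventually.of_forall (hb ω))
  have hi2 : Integrable (fun ω => ∫ ω', (k ω - k ω') ^ 2 ∂P) P := by
    have : Integrable (fun z : Ω × Ω => (k z.1 - k z.2) ^ 2) (P.prod P) :=
      Integrable.of_bound (((hk.comp measurable_fst).sub (hk.comp measurable_snd)).pow_const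
        2).aestronglyMeasurable 4 (Eventually.of_forall fun z => hb z.1 z.2)
    exact this.integral_prod_left
  have h1 : ∀ ω, ⟪∫ ω', W ω' ∂P, W ω⟫_ℝ ≤ r ^ 2 - c ^ 2 / 2 * ∫ ω', (k ω - k ω') ^ 2 ∂P := by
    intro ω
    rw [real_inner_comm, ← integral_inner hW]
    have h2 : r ^ 2 - c ^ 2 / 2 * ∫ ω', (k ω - k ω') ^ 2 ∂P =
        ∫ ω', (r ^ 2 - c ^ 2 / 2 * (k ω - k ω') ^ 2) ∂P := by
      rw [integral_sub (integrable_const _) ((hi1 ω).const_mul _), integral_const_mul]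
      simp
    rw [h2]
    refine integral_mono (hW.const_inner _) ((integrable_const _).sub ((hi1 ω).const_mul _))
      fun ω' => ?_
    have h3 := norm_sub_sq_real (W ω) (W ω')
    rw [hr, hr] at h3
    have h4 := pow_le_pow_left₀ (by positivity) (h ω ω') 2
    rw [mul_pow, sq_abs] at h4
    simp only
    linarith
  rw [← real_inner_self_eq_norm_sq, ← integral_inner hW]
  have h2 : r ^ 2 - c ^ 2 / 2 * ∫ ω, ∫ ω', (k ω - k ω') ^ 2 ∂P ∂P =
      ∫ ω, (r ^ 2 - c ^ 2 / 2 * ∫ ω', (k ω - k ω') ^ 2 ∂P) ∂P := by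
    rw [integral_sub (integrable_const _) (hi2.const_mul _), integral_const_mul]
    simp
  rw [h2]
  exact integral_mono (hW.const_inner _) ((integrable_const _).sub (hi2.const_mul _)) h1

end Pool.Agent.H514Z.AT
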