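import Pool.Agent.H514Z.AT.Green
import Pool.Agent.H514Z.AT.Anti

/-!
# The transfer matrices grow in measure
-/

set_option autoImplicit false
set_option linter.unusedSectionVars false
set_option linter.style.longLine false
set_option linter.deprecated false

namespace Pool.Agent.H514Z.AT

open MeasureTheory ProbabilityTheory Filter Topology
open scoped ENNReal

theorem nondeg (ν : Measure ℝ) [IsProbabilityMeasure ν] (h : ∀ c, ¬ ∀ᵐ x ∂ν, x = c) :
    ∃ θ₁ θ₂ : ℝ, θ₁ < θ₂ ∧ 0 < ν (Set.Iic θ₁) ∧ 0 < ν (Set.Ici θ₂) := by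
  obtain ⟨a, ha⟩ := Measure.nonempty_support (μ := ν) (IsProbabilityMeasure.ne_zero ν)
  obtain ⟨b, hb, hab⟩ : ∃ b ∈ ν.support, b ≠ a := by
    by_contra hcon
    push Not at hcon
    apply h a
    filter_upwards [Measure.support_mem_ae (μ := ν)] with x hx using hcon x hx
  have key : ∀ a b : ℝ, a ∈ ν.support → b ∈ ν.support → a < b →
      ∃ θ₁ θ₂ : ℝ, θ₁ < θ₂ ∧ 0 < ν (Set.Iic θ₁) ∧ 0 < ν (Set.Ici θ₂) := by
    intro a b ha hb hab
    exact ⟨(2 * a + b) / 3, (a + 2 * b) / 3, by linarith,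
      (Measure.mem_support_iff_forall a).1 ha _ (Iic_mem_nhds (by linarith)),
      (Measure.mem_support_iff_forall b).1 hb _ (Ici_mem_nhds (by linarith))⟩
  rcases lt_or_gt_of_ne hab with h1 | h1
  · exact key b a hb ha h1
  · exact key a b ha hb h1

theorem div_lemma (a : ℕ → ℝ) (ha : ∀ n, 0 ≤ a n) (hdiv : ¬ Summable a) (I : Set ℝ)
    (hIm : MeasurableSet I) (hI : volume I ≠ ∞) (Γ : ℕ → Set ℝ) (hΓ : ∀ n, MeasurableSet (Γ n))
    (β : ℝ≥0∞) (hβ : β ≠ 0) (N₀ : ℕ) (h1 : ∀ n, N₀ ≤ n → β + β ≤ volume (Γ n ∩ I))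
    (h2 : ∀ E, ∃ C : ℝ, ∀ N, ∑ n ∈ Finset.range N, (Γ n).indicator (fun _ => a n) E ≤ C) :
    False := by
  set F : ℝ → ℝ≥0∞ := fun E => ∑' n, (Γ n).indicator (fun _ => ENNReal.ofReal (a n)) E with hF
  have hFm : Measurable F := Measurable.ennreal_tsum fun n => measurable_const.indicator (hΓ n)
  have hFt : ∀ E, F E ≠ ∞ := by
    intro E
    obtain ⟨C, hC⟩ := h2 E
    have hs : Summable (fun n => (Γ n).indicator (fun _ => a n) E) :=
      summable_of_sum_range_le (fun n => Set.indicator_nonneg (fun _ _ => ha n) E) hC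
    have h3 := hs.tsum_ofReal_ne_top
    convert h3 using 3 with n
    by_cases h : E ∈ Γ n <;> simp [h]
  set D : ℕ → Set ℝ := fun C => I ∩ {E | (C : ℝ≥0∞) < F E} with hD
  have hDm : ∀ C, MeasurableSet (D C) := fun C =>
    hIm.inter (measurableSet_lt measurable_const hFm)
  have hD0 : Tendsto (fun C => volume (D C)) atTop (𝓝 0) := by
    have h := tendsto_measure_iInter_atTop (μ := (volume : Measure ℝ)) (s := D)
      (fun n => (hDm n).nullMeasurableSet)
      (fun m n hmn x hx => ⟨hx.1, lt_of_le_of_lt (show (m : ℝ≥0∞) ≤ n by exact_mod_cast hmn) hx.2⟩)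
      ⟨0, ne_top_of_le_ne_top hI (measure_mono Set.inter_subset_left)⟩
    have : (⋂ n : ℕ, D n) = ∅ := by
      rw [Set.eq_empty_iff_forall_notMem]
      intro x hx
      obtain ⟨n, hn⟩ := ENNReal.exists_nat_gt (hFt x)
      exact absurd (Set.mem_iInter.1 hx n).2 (not_lt.2 hn.le)
    rwa [this, measure_empty] at h
  obtain ⟨C, hC⟩ := (hD0.eventually (ge_mem_nhds (pos_iff_ne_zero.2 hβ))).exists
  have hβt : β ≠ ∞ := by
    have := (h1 N₀ le_rfl).trans (measure_mono Set.inter_subset_right)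
    exact ne_top_of_le_ne_top hI (le_self_add.trans this)
  have h4 : ∀ n, N₀ ≤ n → β ≤ volume (Γ n ∩ (I \ D C)) := by
    intro n hn
    have h5 : Γ n ∩ I ⊆ (Γ n ∩ (I \ D C)) ∪ D C := by
      intro x hx
      by_cases h : x ∈ D C
      · exact Or.inr h
      · exact Or.inl ⟨hx.1, hx.2, h⟩
    have h6 := (h1 n hn).trans ((measure_mono h5).trans ((measure_union_le _ _).trans
      (add_le_add_right hC _)))
    exact (ENNReal.add_le_add_iff_right hβt).1 h6
  have h7 : ∫⁻ E in I \ D C, F E ≤ C * volume I := by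
    calc ∫⁻ E in I \ D C, F E ≤ ∫⁻ _ in I \ D C, (C : ℝ≥0∞) := by
          refine setLIntegral_mono' (hIm.diff (hDm C)) fun x hx => ?_
          by_contra hcon
          exact hx.2 ⟨hx.1, not_le.1 hcon⟩
      _ ≤ C * volume I := by
          rw [setLIntegral_const]
          gcongr
          exact Set.diff_subset
  have h8 : ∫⁻ E in I \ D C, F E = ∑' n, ENNReal.ofReal (a n) * volume (Γ n ∩ (I \ D C)) := by
    rw [hF, lintegral_tsum fun n => (measurable_const.indicator (hΓ n)).aemeasurable]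
    refine tsum_congr fun n => ?_
    rw [lintegral_indicator_const (hΓ n), Measure.restrict_apply (hΓ n)]
  have h9 : (∑' n, ENNReal.ofReal (a (n + N₀))) * β ≤ C * volume I := by
    rw [← ENNReal.tsum_mul_right]
    refine le_trans ?_ (h8 ▸ h7)
    refine le_trans (ENNReal.tsum_le_tsum fun n => ?_)
      (ENNReal.tsum_comp_le_tsum_of_injective (add_left_injective N₀)
        (fun n => ENNReal.ofReal (a n) * volume (Γ n ∩ (I \ D C))))
    exact mul_le_mul_right (h4 _ (Nat.le_add_left _ _)) _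
  have h10 : ∑' n, ENNReal.ofReal (a (n + N₀)) ≠ ∞ := by
    intro h
    rw [h, ENNReal.top_mul hβ] at h9
    exact ENNReal.mul_ne_top (ENNReal.natCast_ne_top C) hI (top_le_iff.1 h9)
  apply hdiv
  rw [← summable_nat_add_iff N₀]
  have := ENNReal.summable_toReal h10
  simpa only [ENNReal.toReal_ofReal (ha _)] using this

variable {s : ℕ → ℕ}

theorem Yf_meas {Z : Type} [MeasurableSpace Z] (lam : ℝ) (v : Vtx s → Z → ℝ)
    (hv : ∀ x, Measurable (v x)) (e : Z → ℝ) (he : Measurable e) (n : ℕ) :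
    Measurable (fun z => Yf s lam (fun x => v x z) (e z) n) := by
  unfold Yf
  exact (Finset.measurable_sum _ fun i _ => (he.sub ((hv _).const_mul lam)).inv).div_const _

theorem Vf_meas {Z : Type} [MeasurableSpace Z] (lam : ℝ) (v : Vtx s → Z → ℝ)
    (hv : ∀ x, Measurable (v x)) (e : Z → ℝ) (he : Measurable e) (n : ℕ) :
    Measurable (fun z => Vf s lam (fun x => v x z) (e z) n) :=
  (Yf_meas lam v hv e he n).inv

theorem Vf_congr (lam : ℝ) (v v' : Vtx s → ℝ) (E : ℝ) (n : ℕ) (h : ∀ i, v ⟨n, i⟩ = v' ⟨n, i⟩) :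
    Vf s lam v E n = Vf s lam v' E n := by
  unfold Vf Yf
  simp only [h]

theorem shell_indep {Ω : Type} [MeasurableSpace Ω] (Q : Measure Ω) (v : Vtx s → Ω → ℝ)
    (hv : ∀ x, Measurable (v x)) (hind : iIndepFun v Q) (lam E : ℝ) (n : ℕ) :
    IndepFun (fun ω i => if i < n then Vf s lam (fun x => v x ω) E i else 0)
      (fun ω => Vf s lam (fun x => v x ω) E n) Q := by
  classical
  set S : Finset (Vtx s) := (Finset.range n).sigma (fun _ => Finset.univ) with hS
  set T : Finset (Vtx s) := ({n} : Finset ℕ).sigma (fun _ => Finset.univ) with hT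
  have hST : Disjoint S T := by
    rw [Finset.disjoint_left]
    intro x h1 h2
    simp only [hS, hT, Finset.mem_sigma, Finset.mem_range, Finset.mem_singleton] at h1 h2
    omega
  have hext : ∀ (U : Finset (Vtx s)) (x : Vtx s),
      Measurable (fun a : U → ℝ => if h : x ∈ U then a ⟨x, h⟩ else 0) := by
    intro U x
    split_ifs
    · exact measurable_pi_apply _
    · exact measurable_const
  have h := (hind.indepFun_finset S T hST hv).comp
    (φ := fun (a : S → ℝ) (i : ℕ) =>
      if i < n then Vf s lam (fun x => if h : x ∈ S then a ⟨x, h⟩ else 0) E i else 0)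
    (ψ := fun (a : T → ℝ) => Vf s lam (fun x => if h : x ∈ T then a ⟨x, h⟩ else 0) E n)
    (measurable_pi_lambda _ fun i => by
      split_ifs
      · exact Vf_meas lam _ (hext S) _ measurable_const i
      · exact measurable_const)
    (Vf_meas lam _ (hext T) _ measurable_const n)
  convert h using 1
  · funext ω i
    simp only [Function.comp_apply]
    split_ifs with hi
    · refine Vf_congr _ _ _ _ _ fun j => ?_
      rw [dif_pos (by simp [hS, hi])]
    · rfl
  · funext ω
    simp only [Function.comp_apply]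
    refine Vf_congr _ _ _ _ _ fun j => ?_
    rw [dif_pos (by simp [hT])]

theorem per_energy (hs : ∀ n, 0 < s n) {Ω : Type} [MeasurableSpace Ω] (Q : Measure Ω)
    [IsProbabilityMeasure Q] (v : Vtx s → Ω → ℝ) (hv : ∀ x, Measurable (v x))
    (hind : iIndepFun v Q) (P : Measure ℝ) [IsProbabilityMeasure P] (hlaw : ∀ x, Q.map (v x) = P)
    (hP : ∀ c, ¬ ∀ᵐ x ∂P, x = c) (lam : ℝ) (hl : lam ≠ 0) (L δ τ : ℝ) (hL : 0 < L) (hδ : 0 < δ)
    (hτ : 0 < τ) (E : ℝ) (Γ : ℕ → Set ℝ)
    (hΓ : ∀ n, E ∈ Γ n → δ ≤ Q.real {ω | ‖tm (Vf s lam (fun x => v x ω) E) n (1, 0)‖ ≤ L ∧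
        ‖tm (Vf s lam (fun x => v x ω) E) n (0, 1)‖ ≤ L} ∧
      Q.real {ω | τ < |Yf s lam (fun x => v x ω) E n|} ≤ 1 / 4) :
    ∃ C : ℝ, ∀ N, ∑ n ∈ Finset.range N, (Γ n).indicator (fun _ => (s n : ℝ)⁻¹) E ≤ C := by
  classical
  have hg : Measurable (fun x : ℝ => (E - lam * x)⁻¹) := by fun_prop
  have : IsProbabilityMeasure (P.map (fun x : ℝ => (E - lam * x)⁻¹)) :=
    Measure.isProbabilityMeasure_map hg.aemeasurable
  obtain ⟨θ₁, θ₂, hθ, h1, h2⟩ := nondeg (P.map (fun x : ℝ => (E - lam * x)⁻¹)) (by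
    intro c hc
    apply hP ((E - c⁻¹) / lam)
    filter_upwards [ae_of_ae_map hg.aemeasurable hc] with x hx
    rw [← hx, inv_inv]
    field_simp
    ring)
  obtain ⟨t, γ, ht, hγ, hanti⟩ := anti _ θ₁ θ₂ hθ h1 h2 τ hτ
  obtain ⟨c, hc, hdis⟩ := dissip L δ hL hδ
  have key := hdis Q (fun n ω => Vf s lam (fun x => v x ω) E n)
    (fun n => Vf_meas lam v hv _ measurable_const n) (shell_indep Q v hv hind lam E)
    (fun n ω => kt t (Yf s lam (fun x => v x ω) E n))
    (fun n => (kt_meas t).comp (Yf_meas lam v hv _ measurable_const n))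
    (fun n ω => (kt_abs t ht _).trans (by norm_num)) (fun n ω ω' => kt_lip t ht _ _)
    {n | E ∈ Γ n} (fun n hn => (hΓ n hn).1)
  refine ⟨1 / (c * γ), fun N => ?_⟩
  rw [le_div_iff₀ (by positivity), Finset.sum_mul]
  refine le_trans (Finset.sum_le_sum fun n _ => ?_) (key N)
  by_cases hn : E ∈ Γ n
  · rw [Set.indicator_of_mem hn, if_pos (show n ∈ {n | E ∈ Γ n} from hn)]
    have h3 := hanti Q (s n) (hs n) (fun i ω => (E - lam * v ⟨n, i⟩ ω)⁻¹)
      (fun i => hg.comp (hv _))
      ((hind.precomp (g := fun i : Fin (s n) => (⟨n, i⟩ : Vtx s))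
        (sigma_mk_injective (β := fun n => Fin (s n)) (i := n))).comp
        (fun _ x => (E - lam * x)⁻¹) (fun _ => hg))
      (fun i => by rw [← hlaw ⟨n, i⟩, Measure.map_map hg (hv _)]; rfl) (hΓ n hn).2
    have h4 := mul_le_mul_of_nonneg_left h3 hc.le
    refine le_trans (le_of_eq ?_) h4
    ring
  · rw [Set.indicator_of_notMem hn, if_neg (show n ∉ {n | E ∈ Γ n} from hn), zero_mul]

theorem prod_le {Ω : Type} [MeasurableSpace Ω] (Q : Measure Ω) [IsProbabilityMeasure Q]
    (S : Set (Ω × ℝ)) (hS : MeasurableSet S) (c : ℝ≥0∞)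
    (h : ∀ ω, volume (Prod.mk ω ⁻¹' S) ≤ c) : Q.prod volume S ≤ c := by
  rw [Measure.prod_apply hS]
  refine (lintegral_mono h).trans ?_
  simp

theorem claimA (hs : ∀ n, 0 < s n) (hdiv : ¬ Summable (fun n => (s n : ℝ)⁻¹))
    {Ω : Type} [MeasurableSpace Ω] (Q : Measure Ω)
    [IsProbabilityMeasure Q] (v : Vtx s → Ω → ℝ) (hv : ∀ x, Measurable (v x))
    (hind : iIndepFun v Q) (P : Measure ℝ) [IsProbabilityMeasure P] (hlaw : ∀ x, Q.map (v x) = P)
    (hP : ∀ c, ¬ ∀ᵐ x ∂P, x = c) (lam : ℝ) (hl : lam ≠ 0) (M α : ℝ) (hM : 0 < M) (hα : 0 < α) :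
    ∃ N : ℕ, Q.prod volume {z : Ω × ℝ | |z.2| ≤ M ∧
      ‖tm (Vf s lam (fun x => v x z.1) z.2) N (0, 1)‖ ≤ M} ≤ ENNReal.ofReal α := by
  by_contra hcon
  push Not at hcon
  set a := α / 5 with ha
  have ha0 : 0 < a := by positivity
  set t := 4 / a with ht
  have ht0 : 0 < t := by positivity
  set τ := 8 / a with hτ
  have hτ0 : 0 < τ := by positivity
  set δ := a / (2 * M) with hδ
  have hδ0 : 0 < δ := by positivity
  set L := M + t * M with hL
  have hL0 : 0 < L := by positivity
  have hvm : ∀ x, Measurable (fun z : Ω × ℝ => v x z.1) := fun x => (hv x).comp measurable_fst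
  have htm : ∀ n w, Measurable (fun z : Ω × ℝ => tm (Vf s lam (fun x => v x z.1) z.2) n w) :=
    fun n w => tm_meas (fun n (z : Ω × ℝ) => Vf s lam (fun x => v x z.1) z.2 n)
      (fun n => Vf_meas lam _ hvm _ measurable_snd n) n w
  set G : ℕ → Set (Ω × ℝ) := fun n => {z | ‖tm (Vf s lam (fun x => v x z.1) z.2) n (1, 0)‖ ≤ L ∧
    ‖tm (Vf s lam (fun x => v x z.1) z.2) n (0, 1)‖ ≤ L} with hG
  have hGm : ∀ n, MeasurableSet (G n) := fun n =>
    (measurableSet_le (htm n _).norm measurable_const).inter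
      (measurableSet_le (htm n _).norm measurable_const)
  set B : ℕ → Set (Ω × ℝ) := fun n => {z | t * |(tm (Vf s lam (fun x => v x z.1) z.2) n (0, 1)).2| <
    |(tm (Vf s lam (fun x => v x z.1) z.2) n (1, 0)).2|} with hB
  have hBm : ∀ n, MeasurableSet (B n) := fun n =>
    measurableSet_lt ((htm n _).snd.norm.const_mul t) (htm n _).snd.norm
  have hBv : ∀ n, Q.prod volume (B n) ≤ ENNReal.ofReal (a / 2) := by
    intro n
    refine prod_le Q _ (hBm n) _ fun ω => ?_
    refine (green hs lam (fun x => v x ω) n t ht0).trans (le_of_eq ?_)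
    congr 1
    rw [ht]; field_simp; ring
  set W : ℕ → Set (Ω × ℝ) := fun n => {z | τ < |Yf s lam (fun x => v x z.1) z.2 n|} with hW
  have hWm : ∀ n, MeasurableSet (W n) := fun n =>
    measurableSet_lt measurable_const (Yf_meas lam _ hvm _ measurable_snd n).norm
  have hWv : ∀ n, Q.prod volume (W n) ≤ ENNReal.ofReal (a / 4) := by
    intro n
    refine prod_le Q _ (hWm n) _ fun ω => ?_
    have h0 : (s n : ℝ) ≠ 0 := by exact_mod_cast (hs n).ne'
    have h := boole (fun _ : Fin (s n) => (s n : ℝ)⁻¹) (fun i => lam * v ⟨n, i⟩ ω)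
      (fun _ => by positivity) (by simp [h0]) τ hτ0
    refine le_trans (le_of_eq ?_) (h.trans (le_of_eq ?_))
    · congr 1
      ext E
      simp only [hW, Set.mem_preimage, Set.mem_setOf_eq, Yf]
      rw [← Finset.mul_sum, inv_mul_eq_div]
    · congr 1
      rw [hτ]; field_simp; ring
  set p : ℕ → ℝ → ℝ≥0∞ := fun n E => Q ((fun ω => (ω, E)) ⁻¹' G n) with hp
  set q : ℕ → ℝ → ℝ≥0∞ := fun n E => Q ((fun ω => (ω, E)) ⁻¹' W n) with hq
  have hpm : ∀ n, Measurable (p n) := fun n => measurable_measure_prodMk_right (hGm n)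
  have hqm : ∀ n, Measurable (q n) := fun n => measurable_measure_prodMk_right (hWm n)
  set I : Set ℝ := Set.Icc (-M) M with hI
  set Γ : ℕ → Set ℝ := fun n => {E | ENNReal.ofReal δ ≤ p n E ∧ q n E ≤ ENNReal.ofReal (1 / 4)}
    with hΓ
  have hΓm : ∀ n, MeasurableSet (Γ n) := fun n =>
    (measurableSet_le measurable_const (hpm n)).inter (measurableSet_le (hqm n) measurable_const)
  refine div_lemma (fun n => (s n : ℝ)⁻¹) (fun n => by positivity) hdiv I measurableSet_Icc
    (by rw [hI, Real.volume_Icc]; exact ENNReal.ofReal_ne_top) Γ hΓm (ENNReal.ofReal a)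
    (ENNReal.ofReal_pos.2 ha0).ne' 1 (fun n hn => ?_) (fun E => ?_)
  · obtain ⟨m, rfl⟩ : ∃ m, n = m + 1 := ⟨n - 1, by omega⟩
    have e1 : {z : Ω × ℝ | |z.2| ≤ M ∧
        ‖tm (Vf s lam (fun x => v x z.1) z.2) (m + 1) (0, 1)‖ ≤ M} ⊆
        (G (m + 1) ∩ Set.univ ×ˢ I) ∪ (B (m + 1) ∪ B m) := by
      intro z hz
      by_cases hb : z ∈ B (m + 1) ∪ B m
      · exact Or.inr hb
      left
      simp only [Set.mem_union, hB, Set.mem_setOf_eq, not_or, not_lt] at hb
      have f1 : |(tm (Vf s lam (fun x => v x z.1) z.2) (m + 1) (0, 1)).2| ≤ M :=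
        (norm_snd_le _).trans hz.2
      have f2 : |(tm (Vf s lam (fun x => v x z.1) z.2) m (0, 1)).2| ≤ M :=
        (norm_fst_le (tm (Vf s lam (fun x => v x z.1) z.2) (m + 1) (0, 1))).trans hz.2
      have f3 : 0 ≤ t * M := by positivity
      refine ⟨⟨?_, hz.2.trans (by linarith)⟩, Set.mem_univ _, abs_le.1 hz.1⟩
      rw [Prod.norm_def, max_le_iff]
      constructor
      · have := hb.2.trans (mul_le_mul_of_nonneg_left f2 ht0.le)
        exact le_trans this (by linarith)
      · have := hb.1.trans (mul_le_mul_of_nonneg_left f1 ht0.le)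
        exact le_trans this (by linarith)
    have e2 : Q.prod volume (G (m + 1) ∩ Set.univ ×ˢ I) ≤
        volume (Γ (m + 1) ∩ I) + ENNReal.ofReal a + ENNReal.ofReal a := by
      rw [Measure.prod_apply_symm ((hGm _).inter (MeasurableSet.univ.prod measurableSet_Icc))]
      set Bq : Set ℝ := {E | ENNReal.ofReal (1 / 4) ≤ q (m + 1) E} with hBq
      have hBqm : MeasurableSet Bq := measurableSet_le measurable_const (hqm _)
      have f1 : volume Bq ≤ ENNReal.ofReal a := by
        have g1 := mul_meas_ge_le_lintegral (μ := volume) (hqm (m + 1)) (ENNReal.ofReal (1 / 4))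
        have g2 : ∫⁻ E, q (m + 1) E = Q.prod volume (W (m + 1)) :=
          (Measure.prod_apply_symm (hWm _)).symm
        rw [g2] at g1
        have g3 := g1.trans (hWv (m + 1))
        have g4 : ENNReal.ofReal (a / 4) = ENNReal.ofReal (1 / 4) * ENNReal.ofReal a := by
          rw [← ENNReal.ofReal_mul (by norm_num)]
          congr 1; ring
        rw [g4] at g3
        exact (ENNReal.mul_le_mul_iff_right (by simp) ENNReal.ofReal_ne_top).1 g3
      have f2 : ∀ E, Q ((fun ω => (ω, E)) ⁻¹' (G (m + 1) ∩ Set.univ ×ˢ I)) ≤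
          (Γ (m + 1) ∩ I).indicator 1 E + Bq.indicator 1 E +
            I.indicator (fun _ => ENNReal.ofReal δ) E := by
        intro E
        by_cases hE : E ∈ I
        · by_cases h1 : E ∈ Γ (m + 1)
          · rw [Set.indicator_of_mem (show E ∈ Γ (m + 1) ∩ I from ⟨h1, hE⟩)]
            exact prob_le_one.trans (le_self_add.trans le_self_add)
          · by_cases h2 : E ∈ Bq
            · rw [Set.indicator_of_mem h2]
              exact prob_le_one.trans (le_add_self.trans le_self_add)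
            · rw [Set.indicator_of_mem hE]
              refine le_trans ?_ le_add_self
              have g1 : q (m + 1) E ≤ ENNReal.ofReal (1 / 4) := (not_le.1 h2).le
              have g2 : p (m + 1) E ≤ ENNReal.ofReal δ := by
                by_contra g3
                exact h1 ⟨(not_le.1 g3).le, g1⟩
              exact (measure_mono (Set.preimage_mono Set.inter_subset_left)).trans g2
        · have : (fun ω => (ω, E)) ⁻¹' (G (m + 1) ∩ Set.univ ×ˢ I) = ∅ := by
            rw [Set.eq_empty_iff_forall_notMem]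
            intro ω hω
            exact hE hω.2.2
          rw [this, measure_empty]
          exact zero_le
      refine (lintegral_mono f2).trans ?_
      rw [lintegral_add_right _ (measurable_const.indicator measurableSet_Icc),
        lintegral_add_right _ (measurable_one.indicator hBqm),
        lintegral_indicator_one ((hΓm _).inter measurableSet_Icc), lintegral_indicator_one hBqm,
        lintegral_indicator_const measurableSet_Icc, Real.volume_Icc,
        ← ENNReal.ofReal_mul hδ0.le]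
      refine add_le_add (add_le_add le_rfl f1) (le_of_eq ?_)
      congr 1
      rw [hδ]; field_simp; ring
    have e3 := (hcon (m + 1)).le.trans ((measure_mono e1).trans ((measure_union_le _ _).trans
      (add_le_add e2 ((measure_union_le _ _).trans (add_le_add (hBv _) (hBv _))))))
    have e4 : ENNReal.ofReal α = ENNReal.ofReal a + ENNReal.ofReal a + ENNReal.ofReal (3 * a) := by
      rw [← ENNReal.ofReal_add ha0.le ha0.le, ← ENNReal.ofReal_add (by positivity) (by positivity)]
      congr 1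
      rw [ha]; ring
    have e5 : volume (Γ (m + 1) ∩ I) + ENNReal.ofReal a + ENNReal.ofReal a +
        (ENNReal.ofReal (a / 2) + ENNReal.ofReal (a / 2)) =
        volume (Γ (m + 1) ∩ I) + ENNReal.ofReal (3 * a) := by
      rw [add_assoc, add_assoc, ← ENNReal.ofReal_add (by positivity) (by positivity),
        ← ENNReal.ofReal_add (by positivity) (by positivity),
        ← ENNReal.ofReal_add (by positivity) (by positivity)]
      congr 2
      ring
    rw [e4, e5] at e3
    exact (ENNReal.add_le_add_iff_right ENNReal.ofReal_ne_top).1 e3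
  · refine per_energy hs Q v hv hind P hlaw hP lam hl L δ τ hL0 hδ0 hτ0 E Γ fun n hn => ⟨?_, ?_⟩
    · exact (ENNReal.ofReal_le_iff_le_toReal (measure_ne_top _ _)).1 hn.1
    · exact ENNReal.toReal_le_of_le_ofReal (by norm_num) hn.2

theorem growth (hs : ∀ n, 0 < s n) (hdiv : ¬ Summable (fun n => (s n : ℝ)⁻¹))
    {Ω : Type} [MeasurableSpace Ω] (Q : Measure Ω)
    [IsProbabilityMeasure Q] (v : Vtx s → Ω → ℝ) (hv : ∀ x, Measurable (v x))
    (hind : iIndepFun v Q) (P : Measure ℝ) [IsProbabilityMeasure P] (hlaw : ∀ x, Q.map (v x) = P)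
    (hP : ∀ c, ¬ ∀ᵐ x ∂P, x = c) (lam : ℝ) (hl : lam ≠ 0) :
    ∃ N : ℕ → ℕ, ∀ᵐ ω ∂Q, ∀ᵐ E ∂(volume : Measure ℝ), ∀ᶠ j : ℕ in atTop,
      (j : ℝ) < ‖tm (Vf s lam (fun x => v x ω) E) (N j) (0, 1)‖ := by
  choose N hN using fun j : ℕ => claimA hs hdiv Q v hv hind P hlaw hP lam hl ((j : ℝ) + 1)
    ((1 / 2) ^ j) (by positivity) (by positivity)
  refine ⟨N, Measure.ae_ae_of_ae_prod
    (p := fun z : Ω × ℝ => ∀ᶠ j : ℕ in atTop,
      (j : ℝ) < ‖tm (Vf s lam (fun x => v x z.1) z.2) (N j) (0, 1)‖) ?_⟩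
  have h := ae_eventually_notMem (ne_top_of_le_ne_top
    (summable_geometric_two.tsum_ofReal_ne_top) (ENNReal.tsum_le_tsum hN))
  filter_upwards [h] with z hz
  filter_upwards [hz, (tendsto_natCast_atTop_atTop (R := ℝ)).eventually_ge_atTop |z.2|] with j h1 h2
  by_contra h3
  exact h1 ⟨by linarith, by linarith [not_lt.1 h3]⟩

end Pool.Agent.H514Z.AT
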