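import Pool.Agent.H514Z.AT.Hilb

/-!
# Products of independent transfer matrices acting on square integrable functions on the plane
-/

set_option autoImplicit false
set_option linter.unusedSectionVars false
set_option linter.style.longLine false
set_option linter.deprecated false

namespace Pool.Agent.H514Z.AT

open MeasureTheory ProbabilityTheory Filter Topology
open scoped InnerProductSpace ENNReal

theorem indep_fubini {F : Type} [NormedAddCommGroup F] [NormedSpace ℝ F] [CompleteSpace F]
    {Ω α β : Type} [MeasurableSpace Ω] [MeasurableSpace α] [MeasurableSpace β]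
    (P : Measure Ω) [IsProbabilityMeasure P] (X : Ω → α) (Y : Ω → β) (hX : Measurable X)
    (hY : Measurable Y) (h : IndepFun X Y P) (G : α × β → F) (hG : StronglyMeasurable G) (C : ℝ)
    (hC : ∀ z, ‖G z‖ ≤ C) :
    ∫ ω, G (X ω, Y ω) ∂P = ∫ ω', ∫ ω, G (X ω, Y ω') ∂P ∂P := by
  have : IsProbabilityMeasure (P.map X) := Measure.isProbabilityMeasure_map hX.aemeasurable
  have : IsProbabilityMeasure (P.map Y) := Measure.isProbabilityMeasure_map hY.aemeasurable
  rw [← integral_map (φ := fun ω => (X ω, Y ω)) (hX.prodMk hY).aemeasurable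
    hG.aestronglyMeasurable, h.map_prod_eq_prod_map_map hX.aemeasurable hY.aemeasurable,
    integral_prod_symm _ (Integrable.of_bound hG.aestronglyMeasurable C (Eventually.of_forall hC)),
    integral_map hY.aemeasurable hG.integral_prod_left'.aestronglyMeasurable]
  refine integral_congr_ae (Eventually.of_forall fun ω' => ?_)
  exact integral_map (f := fun x => G (x, Y ω')) hX.aemeasurable
    (hG.comp_measurable (measurable_id.prodMk measurable_const)).aestronglyMeasurable

/-- The transfer recursion: the state `(z (n - 1), z n)` of a solution of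
`z (n + 1) = V n * z n - z (n - 1)`. -/
def tm (V : ℕ → ℝ) : ℕ → ℝ × ℝ → ℝ × ℝ
  | 0, z => z
  | n + 1, z => ((tm V n z).2, V n * (tm V n z).2 - (tm V n z).1)

theorem tm_lin (V : ℕ → ℝ) (n : ℕ) (z : ℝ × ℝ) :
    tm V n z = z.1 • tm V n (1, 0) + z.2 • tm V n (0, 1) := by
  induction n with
  | zero => ext <;> simp [tm]
  | succ n ih =>
    have h1 := congrArg Prod.fst ih
    have h2 := congrArg Prod.snd ih
    simp only [Prod.fst_add, Prod.smul_fst, Prod.snd_add, Prod.smul_snd, smul_eq_mul] at h1 h2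
    ext
    · simp only [tm, Prod.fst_add, Prod.smul_fst, smul_eq_mul, h2]
    · simp only [tm, Prod.snd_add, Prod.smul_snd, smul_eq_mul, h1, h2]
      ring

/-- shear of the plane -/
def sh (y : ℝ) (z : ℝ × ℝ) : ℝ × ℝ := (z.1, z.2 + -(y * z.1))

/-- quarter turn of the plane -/
def qt (z : ℝ × ℝ) : ℝ × ℝ := (-z.2, z.1)

theorem sh_mp (y : ℝ) : MeasurePreserving (sh y) (volume : Measure (ℝ × ℝ)) volume :=
  (MeasurePreserving.id (volume : Measure ℝ)).skew_product (μc := (volume : Measure ℝ))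
    (μd := (volume : Measure ℝ)) (g := fun p q : ℝ => q + -(y * p)) (by fun_prop)
    (Eventually.of_forall fun p => map_add_right_eq_self _ _)

theorem qt_mp : MeasurePreserving qt (volume : Measure (ℝ × ℝ)) volume :=
  ((Measure.measurePreserving_neg (volume : Measure ℝ)).prod
    (MeasurePreserving.id (volume : Measure ℝ))).comp Measure.measurePreserving_swap

/-- the inverse transfer maps -/
def im (V : ℕ → ℝ) : ℕ → ℝ × ℝ → ℝ × ℝ
  | 0 => id
  | n + 1 => (im V n ∘ qt) ∘ sh (V n)

theorem im_mp (V : ℕ → ℝ) (n : ℕ) : MeasurePreserving (im V n) (volume : Measure (ℝ × ℝ)) volume := by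
  induction n with
  | zero => exact MeasurePreserving.id _
  | succ n ih => exact (ih.comp qt_mp).comp (sh_mp _)

theorem tm_im (V : ℕ → ℝ) (n : ℕ) (z : ℝ × ℝ) : tm V n (im V n z) = z := by
  induction n generalizing z with
  | zero => rfl
  | succ n ih =>
    simp only [tm, im, Function.comp_apply, ih, qt, sh]
    ext
    · rfl
    · simp

theorem im_congr (V V' : ℕ → ℝ) (n : ℕ) (h : ∀ i < n, V i = V' i) : im V n = im V' n := by
  induction n with
  | zero => rfl
  | succ n ih =>
    simp only [im]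
    rw [ih (fun i hi => h i (Nat.lt_succ_of_lt hi)), h n (Nat.lt_succ_self n)]

/-- square integrable functions on the plane -/
abbrev LL : Type := Lp ℝ 2 (volume : Measure (ℝ × ℝ))

/-- the shears acting on functions -/
noncomputable def UU (y : ℝ) : LL →ₗᵢ[ℝ] LL := Lp.compMeasurePreservingₗᵢ ℝ (sh y) (sh_mp y)

/-- the quarter turn acting on functions -/
noncomputable def JJ : LL →ₗᵢ[ℝ] LL := Lp.compMeasurePreservingₗᵢ ℝ qt qt_mp

theorem comp_congr {f g : ℝ × ℝ → ℝ × ℝ} (h : f = g)
    (hf : MeasurePreserving f (volume : Measure (ℝ × ℝ)) volume)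
    (hg : MeasurePreserving g (volume : Measure (ℝ × ℝ)) volume) (u : LL) :
    Lp.compMeasurePreserving f hf u = Lp.compMeasurePreserving g hg u := by
  subst h; rfl

theorem UU_add (x y : ℝ) (f : LL) : UU (x + y) f = UU x (UU y f) := by
  have h : sh (x + y) = sh y ∘ sh x := by
    funext z
    simp only [sh, Function.comp_apply]
    ext
    · rfl
    · simp only; ring
  exact (comp_congr h _ ((sh_mp y).comp (sh_mp x)) f).trans
    (Lp.compMeasurePreserving_comp_apply f (sh_mp y) (sh_mp x))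

theorem UU_zero (f : LL) : UU 0 f = f := by
  have h : sh 0 = id := by
    funext z
    simp [sh]
  exact (comp_congr h _ (MeasurePreserving.id _) f).trans (Lp.compMeasurePreserving_id_apply f)

theorem UU_cont {Z : Type} [TopologicalSpace Z] (y : Z → ℝ) (g : Z → LL) (hy : Continuous y)
    (hg : Continuous g) : Continuous (fun z => UU (y z) (g z)) := by
  let S : C(ℝ × (ℝ × ℝ), ℝ × ℝ) := ⟨fun w => sh w.1 w.2, by unfold sh; fun_prop⟩
  exact hg.compMeasurePreservingLp (g := fun z => S.curry (y z)) (S.curry.continuous.comp hy)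
    (fun z => sh_mp (y z)) (by simp)

/-- the unit square -/
def sq0 : Set (ℝ × ℝ) := Set.Icc 0 1 ×ˢ Set.Icc 0 1

theorem sq0_meas : MeasurableSet sq0 := measurableSet_Icc.prod measurableSet_Icc

theorem sq0_vol : volume sq0 = 1 := by
  unfold sq0
  rw [Measure.volume_eq_prod, Measure.prod_prod]
  simp

/-- the transported indicator of the unit square -/
noncomputable def Phi (V : ℕ → ℝ) (n : ℕ) : LL :=
  Lp.compMeasurePreserving (im V n) (im_mp V n)
    (indicatorConstLp 2 sq0_meas (by rw [sq0_vol]; simp) (1 : ℝ))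

theorem Phi_succ (V : ℕ → ℝ) (n : ℕ) : Phi V (n + 1) = UU (V n) (JJ (Phi V n)) :=
  (Lp.compMeasurePreserving_comp_apply _ ((im_mp V n).comp qt_mp) (sh_mp (V n))).trans
    (congrArg _ (Lp.compMeasurePreserving_comp_apply _ (im_mp V n) qt_mp))

theorem Phi_norm (V : ℕ → ℝ) (n : ℕ) : ‖Phi V n‖ = 1 := by
  unfold Phi
  rw [Lp.norm_compMeasurePreserving, norm_indicatorConstLp (by simp) (by simp), measureReal_def,
    sq0_vol]
  simp

theorem Phi_congr (V V' : ℕ → ℝ) (n : ℕ) (h : ∀ i < n, V i = V' i) : Phi V n = Phi V' n :=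
  comp_congr (im_congr V V' n h) _ _ _

theorem Phi_cont (n : ℕ) : Continuous (fun V : ℕ → ℝ => Phi V n) := by
  induction n with
  | zero => exact continuous_const (y := Phi (fun _ => 0) 0)
  | succ n ih =>
    simp only [Phi_succ]
    exact UU_cont _ _ (continuous_apply n) (JJ.continuous.comp ih)

/-- a box with a thin strip removed -/
def bx (L : ℝ) : Set (ℝ × ℝ) := {z | 1 / (16 * L) ≤ |z.1| ∧ |z.1| ≤ 2 * L ∧ |z.2| ≤ 2 * L}

theorem bx_meas (L : ℝ) : MeasurableSet (bx L) := by
  unfold bx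
  measurability

theorem bx_vol (L : ℝ) : volume (bx L) ≠ ∞ := by
  have : bx L ⊆ Set.Icc (-(2 * L)) (2 * L) ×ˢ Set.Icc (-(2 * L)) (2 * L) :=
    fun z hz => ⟨abs_le.1 hz.2.1, abs_le.1 hz.2.2⟩
  exact ne_top_of_le_ne_top (isCompact_Icc.prod isCompact_Icc).measure_ne_top (measure_mono this)

/-- the indicator of the box -/
noncomputable def ebx (L : ℝ) : LL := indicatorConstLp 2 (bx_meas L) (bx_vol L) (1 : ℝ)

theorem ebx_orth (L : ℝ) (hL : 0 < L) (y : ℝ) (hy : 64 * L ^ 2 + 1 ≤ |y|) :
    ⟪UU y (ebx L), ebx L⟫_ℝ = 0 := by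
  have h : UU y (ebx L) = indicatorConstLp 2 ((bx_meas L).preimage (sh_mp y).measurable)
      (by rw [(sh_mp y).measure_preimage (bx_meas L).nullMeasurableSet]; exact bx_vol L) (1 : ℝ) :=
    rfl
  rw [h, ebx, L2.real_inner_indicatorConstLp_one_indicatorConstLp_one _ _ _ _]
  have : sh y ⁻¹' bx L ∩ bx L = ∅ := by
    rw [Set.eq_empty_iff_forall_notMem]
    rintro z ⟨h1, h2⟩
    have h3 : |z.2 + -(y * z.1)| ≤ 2 * L := h1.2.2
    have h4 : |y * z.1| ≤ 4 * L := by
      have := abs_le.1 h3
      have := abs_le.1 h2.2.2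
      rw [abs_le]; constructor <;> linarith
    rw [abs_mul] at h4
    have h5 := h2.1
    rw [div_le_iff₀ (by positivity)] at h5
    nlinarith [abs_nonneg z.1, abs_nonneg y]
  rw [this]
  simp

theorem Phi_inner (V : ℕ → ℝ) (n : ℕ) (L : ℝ) :
    ⟪JJ (Phi V n), ebx L⟫_ℝ = volume.real ((im V n ∘ qt) ⁻¹' sq0 ∩ bx L) := by
  have h : JJ (Phi V n) = indicatorConstLp 2 (sq0_meas.preimage ((im_mp V n).comp qt_mp).measurable)
      (by rw [((im_mp V n).comp qt_mp).measure_preimage sq0_meas.nullMeasurableSet, sq0_vol]; simp)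
      (1 : ℝ) := rfl
  rw [h, ebx, L2.real_inner_indicatorConstLp_one_indicatorConstLp_one _ _ _ _]

theorem Phi_inner_ge (V : ℕ → ℝ) (n : ℕ) (L : ℝ) (hL : 0 < L) (h1 : ‖tm V n (1, 0)‖ ≤ L)
    (h2 : ‖tm V n (0, 1)‖ ≤ L) : 1 / 2 ≤ ⟪JJ (Phi V n), ebx L⟫_ℝ := by
  rw [Phi_inner]
  set K := (im V n ∘ qt) ⁻¹' sq0 with hK
  have hKv : volume K = 1 := by
    rw [hK, ((im_mp V n).comp qt_mp).measure_preimage sq0_meas.nullMeasurableSet, sq0_vol]
  set T : Set (ℝ × ℝ) := Set.Icc (-(1 / (16 * L))) (1 / (16 * L)) ×ˢ Set.Icc (-(2 * L)) (2 * L)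
    with hT
  have hTv : volume T = ENNReal.ofReal (1 / 2) := by
    rw [hT, Measure.volume_eq_prod, Measure.prod_prod, Real.volume_Icc, Real.volume_Icc,
      ← ENNReal.ofReal_mul (by have : 0 < 1 / (16 * L) := by positivity
                               linarith)]
    congr 1
    field_simp
    ring
  have hsub : K ⊆ (K ∩ bx L) ∪ T := by
    intro z hz
    have hb : im V n (qt z) ∈ sq0 := hz
    have h3 : ‖qt z‖ ≤ 2 * L := by
      rw [← tm_im V n (qt z), tm_lin]
      refine (norm_add_le _ _).trans ?_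
      rw [norm_smul, norm_smul, Real.norm_of_nonneg hb.1.1, Real.norm_of_nonneg hb.2.1]
      have := mul_le_mul hb.1.2 h1 (norm_nonneg _) zero_le_one
      have := mul_le_mul hb.2.2 h2 (norm_nonneg _) zero_le_one
      linarith
    have h4 : |z.2| ≤ 2 * L := by
      have := (norm_fst_le (qt z)).trans h3
      simpa [qt] using this
    have h5 : |z.1| ≤ 2 * L := by
      have := (norm_snd_le (qt z)).trans h3
      simpa [qt] using this
    by_cases h6 : 1 / (16 * L) ≤ |z.1|
    · exact Or.inl ⟨hz, h6, h5, h4⟩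
    · exact Or.inr ⟨abs_le.1 (not_le.1 h6).le, abs_le.1 h4⟩
  have h7 := (measure_mono (μ := (volume : Measure (ℝ × ℝ))) hsub).trans (measure_union_le _ _)
  rw [hKv, hTv] at h7
  have h8 : volume (K ∩ bx L) ≠ ∞ :=
    ne_top_of_le_ne_top (bx_vol L) (measure_mono Set.inter_subset_right)
  have h9 := ENNReal.toReal_mono (ENNReal.add_ne_top.2 ⟨h8, ENNReal.ofReal_ne_top⟩) h7
  rw [ENNReal.toReal_add h8 ENNReal.ofReal_ne_top, ENNReal.toReal_ofReal (by norm_num)] at h9
  rw [measureReal_def]
  simp only [ENNReal.toReal_one] at h9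
  linarith

theorem tm_meas {Z : Type} [MeasurableSpace Z] (V : ℕ → Z → ℝ) (hV : ∀ n, Measurable (V n))
    (n : ℕ) (z : ℝ × ℝ) : Measurable (fun ω => tm (fun i => V i ω) n z) := by
  induction n with
  | zero => exact measurable_const
  | succ n ih =>
    simp only [tm]
    exact ih.snd.prodMk (((hV n).mul ih.snd).sub ih.fst)

/-- Dissipation: whenever the transfer matrix is bounded with probability at least `δ`, the next
random shear removes norm in proportion to its spread; the total removed norm is at most one. -/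
theorem dissip (L δ : ℝ) (hL : 0 < L) (hδ : 0 < δ) : ∃ c : ℝ, 0 < c ∧
    ∀ {Ω : Type} [MeasurableSpace Ω] (P : Measure Ω) [IsProbabilityMeasure P] (V : ℕ → Ω → ℝ),
      (∀ n, Measurable (V n)) →
      (∀ n, IndepFun (fun ω i => if i < n then V i ω else 0) (V n) P) →
      ∀ (k : ℕ → Ω → ℝ), (∀ n, Measurable (k n)) → (∀ n ω, |k n ω| ≤ 1) →
      (∀ n ω ω', |k n ω - k n ω'| ≤ min 1 |V n ω - V n ω'|) →
      ∀ (G : Set ℕ) [DecidablePred (· ∈ G)], (∀ n ∈ G, δ ≤ P.real
        {ω | ‖tm (fun i => V i ω) n (1, 0)‖ ≤ L ∧ ‖tm (fun i => V i ω) n (0, 1)‖ ≤ L}) →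
      ∀ N : ℕ, ∑ n ∈ Finset.range N,
        (if n ∈ G then c * ∫ ω, ∫ ω', (k n ω - k n ω') ^ 2 ∂P ∂P else 0) ≤ 1 := by
  obtain ⟨c, hc, hmove⟩ := group_move UU UU_add UU_zero (ebx L) (64 * L ^ 2 + 1) (by positivity)
    (ebx_orth L hL) (δ / 2) (by positivity)
  refine ⟨c ^ 2 / 2, by positivity, ?_⟩
  intro Ω _ P _ V hV hind k hk hk1 hk2 G _ hG
  have hVm : Measurable (fun ω i => V i ω) := measurable_pi_lambda _ hV
  have hPi : ∀ n, Integrable (fun ω => Phi (fun i => V i ω) n) P := fun n =>
    Integrable.of_bound ((Phi_cont n).stronglyMeasurable.comp_measurable hVm).aestronglyMeasurable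
      1 (Eventually.of_forall fun ω => (Phi_norm _ _).le)
  set f : ℕ → LL := fun n => ∫ ω, Phi (fun i => V i ω) n ∂P with hf
  have hfn : ∀ n, ‖f n‖ ≤ 1 := by
    intro n
    have := norm_integral_le_of_norm_le_const (μ := P) (f := fun ω => Phi (fun i => V i ω) n)
      (C := 1) (Eventually.of_forall fun ω => (Phi_norm _ _).le)
    simpa using this
  have hJ : ∀ n, JJ (f n) = ∫ ω, JJ (Phi (fun i => V i ω) n) ∂P := fun n =>
    (JJ.integral_comp_comm _).symm
  have hsucc : ∀ n, f (n + 1) = ∫ ω, UU (V n ω) (JJ (f n)) ∂P := by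
    intro n
    have hX : Measurable (fun ω i => if i < n then V i ω else 0) := by
      refine measurable_pi_lambda _ fun i => ?_
      split_ifs
      · exact hV i
      · exact measurable_const
    have hcg : ∀ ω, Phi (fun i => if i < n then V i ω else 0) n = Phi (fun i => V i ω) n :=
      fun ω => Phi_congr _ _ _ (fun i hi => if_pos hi)
    have h := indep_fubini P _ _ hX (hV n) (hind n)
      (fun z : (ℕ → ℝ) × ℝ => UU z.2 (JJ (Phi z.1 n)))
      (UU_cont _ _ continuous_snd
        (JJ.continuous.comp ((Phi_cont n).comp continuous_fst))).stronglyMeasurable 1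
      (fun z => by rw [LinearIsometry.norm_map, LinearIsometry.norm_map, Phi_norm])
    simp only [hcg] at h
    rw [hf]
    simp only [Phi_succ]
    rw [h]
    refine integral_congr_ae (Eventually.of_forall fun ω' => ?_)
    simp only
    rw [(UU (V n ω')).integral_comp_comm, JJ.integral_comp_comm]
  have hWi : ∀ n, Integrable (fun ω => UU (V n ω) (JJ (f n))) P := fun n =>
    Integrable.of_bound ((UU_cont (fun y : ℝ => y) (fun _ => JJ (f n)) continuous_id
      continuous_const).stronglyMeasurable.comp_measurable (hV n)).aestronglyMeasurable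
      ‖f n‖ (Eventually.of_forall fun ω => by
        rw [LinearIsometry.norm_map, LinearIsometry.norm_map])
  have hstep : ∀ n, ‖f (n + 1)‖ ^ 2 ≤ ‖f n‖ ^ 2 -
      (if n ∈ G then c ^ 2 / 2 * ∫ ω, ∫ ω', (k n ω - k n ω') ^ 2 ∂P ∂P else 0) := by
    intro n
    have hr : ∀ ω, ‖UU (V n ω) (JJ (f n))‖ = ‖f n‖ := fun ω => by
      rw [LinearIsometry.norm_map, LinearIsometry.norm_map]
    rw [hsucc]
    split_ifs with hn
    · refine avg_sq P _ (hWi n) _ hr (k n) (hk n) (hk1 n) c hc.le fun ω ω' => ?_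
      have h1 : δ / 2 ≤ ⟪JJ (f n), ebx L⟫_ℝ := by
        have hJi : Integrable (fun ω => JJ (Phi (fun i => V i ω) n)) P :=
          JJ.toContinuousLinearMap.integrable_comp (hPi n)
        rw [hJ, real_inner_comm, ← integral_inner hJi]
        set S := {ω | ‖tm (fun i => V i ω) n (1, 0)‖ ≤ L ∧ ‖tm (fun i => V i ω) n (0, 1)‖ ≤ L}
          with hS
        have hSm : MeasurableSet S :=
          (measurableSet_le (tm_meas V hV n _).norm measurable_const).inter
            (measurableSet_le (tm_meas V hV n _).norm measurable_const)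
        have h2 : ∫ ω, S.indicator (fun _ => (1 / 2 : ℝ)) ω ∂P = P.real S * (1 / 2) := by
          rw [integral_indicator_const _ hSm, smul_eq_mul]
        have h3 : ∫ ω, S.indicator (fun _ => (1 / 2 : ℝ)) ω ∂P ≤
            ∫ ω, ⟪ebx L, JJ (Phi (fun i => V i ω) n)⟫_ℝ ∂P := by
          refine integral_mono ((integrable_const _).indicator hSm) (hJi.const_inner _) fun ω => ?_
          simp only
          rw [real_inner_comm]
          by_cases hω : ω ∈ S
          · rw [Set.indicator_of_mem hω]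
            exact Phi_inner_ge _ _ _ hL hω.1 hω.2
          · rw [Set.indicator_of_notMem hω, Phi_inner]
            exact measureReal_nonneg
        have h4 := hG n hn
        linarith
      have h2 := hmove (JJ (f n)) (by rw [LinearIsometry.norm_map]; exact hfn n) h1
        (V n ω - V n ω')
      have h3 : UU (V n ω) (JJ (f n)) - UU (V n ω') (JJ (f n)) =
          UU (V n ω') (UU (V n ω - V n ω') (JJ (f n)) - JJ (f n)) := by
        rw [map_sub, ← UU_add]
        congr 3
        ring
      rw [h3, LinearIsometry.norm_map]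
      exact (mul_le_mul_of_nonneg_left (hk2 n ω ω') hc.le).trans h2
    · have := avg_sq P _ (hWi n) _ hr (k n) (hk n) (hk1 n) 0 le_rfl fun ω ω' => by simp
      simpa using this
  intro N
  have hN : ∑ n ∈ Finset.range N,
      (if n ∈ G then c ^ 2 / 2 * ∫ ω, ∫ ω', (k n ω - k n ω') ^ 2 ∂P ∂P else 0) ≤
      ‖f 0‖ ^ 2 - ‖f N‖ ^ 2 := by
    induction N with
    | zero => simp
    | succ N ih =>
      rw [Finset.sum_range_succ]
      have := hstep N
      linarith
  have h0 : ‖f 0‖ ^ 2 ≤ 1 := pow_le_one₀ (norm_nonneg _) (hfn 0)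
  nlinarith [sq_nonneg ‖f N‖]

end Pool.Agent.H514Z.AT
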