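import Pool.Agent.H514Z.AT.Defs

/-!
# Spectral measures and their transfer along functional relations
-/

set_option autoImplicit false
set_option linter.unusedSectionVars false
set_option linter.style.longLine false
set_option linter.deprecated false

namespace Pool.Agent.H514Z.AT

open MeasureTheory Filter Topology
open scoped InnerProductSpace ENNReal

variable {E : Type} [NormedAddCommGroup E] [InnerProductSpace ℂ E] [CompleteSpace E]

theorem sa_inner {A : E →L[ℂ] E} (hA : IsSelfAdjoint A) (x y : E) :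
    ⟪A x, y⟫_ℂ = ⟪x, A y⟫_ℂ :=
  (ContinuousLinearMap.isSelfAdjoint_iff_isSymmetric.1 hA) x y

theorem sa_inner_real {A : E →L[ℂ] E} (hA : IsSelfAdjoint A) (x : E) :
    (((⟪x, A x⟫_ℂ).re : ℝ) : ℂ) = ⟪x, A x⟫_ℂ := by
  apply Complex.conj_eq_iff_re.1
  rw [inner_conj_symm, sa_inner hA]

theorem exists_spec {H : E →L[ℂ] E} (hH : IsSelfAdjoint H) (ψ : E) : ∃ μ, IsSpecMeas H ψ μ := by
  have hc : IsCompact (spectrum ℝ H) := spectrum.isCompact H
  have : CompactSpace (spectrum ℝ H) := isCompact_iff_compactSpace.1 hc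
  let Φ : C(spectrum ℝ H, ℝ) →⋆ₐ[ℝ] (E →L[ℂ] E) := cfcHom hH
  have hpos : ∀ f : C(spectrum ℝ H, ℝ), 0 ≤ f → 0 ≤ (⟪ψ, Φ f ψ⟫_ℂ).re := by
    intro f hf
    let g : C(spectrum ℝ H, ℝ) := ⟨fun x => Real.sqrt (f x), by fun_prop⟩
    have hg : f = g * g := by
      ext x
      exact (Real.mul_self_sqrt (hf x)).symm
    have hsa : IsSelfAdjoint (Φ g) := cfcHom_predicate hH g
    rw [hg, map_mul, ContinuousLinearMap.mul_apply, ← sa_inner hsa]
    exact inner_self_nonneg (𝕜 := ℂ)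
  let Λ : CompactlySupportedContinuousMap (spectrum ℝ H) ℝ →ₚ[ℝ] ℝ :=
  { toFun := fun g => (⟪ψ, Φ g.toContinuousMap ψ⟫_ℂ).re
    map_add' := fun g g' => by
      have : (g + g').toContinuousMap = g.toContinuousMap + g'.toContinuousMap := rfl
      rw [this, map_add, ContinuousLinearMap.add_apply, inner_add_right, Complex.add_re]
    map_smul' := fun c g => by
      have : (c • g).toContinuousMap = c • g.toContinuousMap := rfl
      rw [this, map_smul, ContinuousLinearMap.smul_apply, ← Complex.coe_smul, inner_smul_right,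
        Complex.re_ofReal_mul]
      rfl
    monotone' := fun g g' hgg' => by
      have h := hpos (g'.toContinuousMap - g.toContinuousMap) (fun x => sub_nonneg.2 (hgg' x))
      rw [map_sub, ContinuousLinearMap.sub_apply, inner_sub_right, Complex.sub_re] at h
      exact sub_nonneg.1 h }
  have hint : ∀ h : C(spectrum ℝ H, ℝ),
      ∫ x, h x ∂(RealRMK.rieszMeasure Λ) = (⟪ψ, Φ h ψ⟫_ℂ).re := by
    intro h
    let h' : CompactlySupportedContinuousMap (spectrum ℝ H) ℝ :=
    { toContinuousMap := h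
      hasCompactSupport' := HasCompactSupport.of_compactSpace _ }
    exact RealRMK.integral_rieszMeasure Λ h'
  have hemb : MeasurableEmbedding (Subtype.val : spectrum ℝ H → ℝ) :=
    MeasurableEmbedding.subtype_coe hc.measurableSet
  refine ⟨(RealRMK.rieszMeasure Λ).map Subtype.val, inferInstance, fun f hf => ⟨?_, ?_⟩⟩
  · rw [hemb.integrable_map_iff]
    have : Continuous (f ∘ (Subtype.val : spectrum ℝ H → ℝ)) := by fun_prop
    exact this.integrable_of_hasCompactSupport (HasCompactSupport.of_compactSpace _)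
  · rw [hemb.integral_map, ← sa_inner_real (cfc_predicate f H) ψ,
      cfc_apply f H hH hf.continuousOn]
    exact congrArg _ (hint ⟨_, hf.continuousOn.domRestrict⟩)

theorem IsSpecMeas.re {H : E →L[ℂ] E} {ψ : E} {μ : Measure ℝ} (h : IsSpecMeas H ψ μ)
    {f : ℝ → ℝ} (hf : Continuous f) : ∫ x, f x ∂μ = (⟪ψ, (cfc f H : E →L[ℂ] E) ψ⟫_ℂ).re := by
  rw [← (h.2 f hf).2, Complex.ofReal_re]

theorem IsSpecMeas.unique {H : E →L[ℂ] E} {ψ : E} {μ ν : Measure ℝ} (h : IsSpecMeas H ψ μ)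
    (h' : IsSpecMeas H ψ ν) : μ = ν := by
  have := h.1
  have := h'.1
  apply ext_of_forall_integral_eq_of_IsFiniteMeasure
  intro f
  rw [h.re f.continuous, h'.re f.continuous]

theorem IsSpecMeas.univ {H : E →L[ℂ] E} (hH : IsSelfAdjoint H) {ψ : E} {μ : Measure ℝ}
    (h : IsSpecMeas H ψ μ) : μ Set.univ = ENNReal.ofReal (‖ψ‖ ^ 2) := by
  have := h.1
  have h1 := h.re (f := fun _ => 1) continuous_const
  rw [cfc_const_one ℝ H, ContinuousLinearMap.one_apply, integral_const, smul_eq_mul, mul_one] at h1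
  have h2 : (⟪ψ, ψ⟫_ℂ).re = ‖ψ‖ ^ 2 := inner_self_eq_norm_sq (𝕜 := ℂ) ψ
  rw [← h2, ← h1, ofReal_measureReal]

theorem IsSpecMeas.add_le {H : E →L[ℂ] E} (hH : IsSelfAdjoint H) {ψ χ : E} {μ ν ρ : Measure ℝ}
    (h1 : IsSpecMeas H ψ μ) (h2 : IsSpecMeas H χ ν) (h3 : IsSpecMeas H (ψ + χ) ρ) (S : Set ℝ) :
    ρ S ≤ 2 * μ S + 2 * ν S := by
  obtain ⟨σ, h4⟩ := exists_spec hH (ψ - χ)
  have := h1.1
  have := h2.1
  have := h3.1
  have := h4.1
  have key : ρ + σ = (μ + μ) + (ν + ν) := by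
    apply ext_of_forall_integral_eq_of_IsFiniteMeasure
    intro f
    have i1 := (h1.2 f f.continuous).1
    have i2 := (h2.2 f f.continuous).1
    rw [integral_add_measure (h3.2 f f.continuous).1 (h4.2 f f.continuous).1,
      integral_add_measure (i1.add_measure i1) (i2.add_measure i2), integral_add_measure i1 i1,
      integral_add_measure i2 i2, h1.re f.continuous, h2.re f.continuous, h3.re f.continuous,
      h4.re f.continuous]
    simp only [map_add, map_sub, inner_add_left, inner_add_right, inner_sub_left, inner_sub_right,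
      Complex.add_re, Complex.sub_re]
    ring
  have h5 : ρ S ≤ (ρ + σ) S := by
    rw [Measure.add_apply]; exact le_self_add
  rw [key] at h5
  simpa [Measure.add_apply, two_mul] using h5

theorem IsSpecMeas.smul_null {H : E →L[ℂ] E} {ψ : E} {c : ℂ} {μ ν : Measure ℝ}
    (h1 : IsSpecMeas H ψ μ) (h2 : IsSpecMeas H (c • ψ) ν) (S : Set ℝ) (hS : μ S = 0) :
    ν S = 0 := by
  have := h1.1
  have := h2.1
  have key : ν = (‖c‖₊ ^ 2) • μ := by
    apply ext_of_forall_integral_eq_of_IsFiniteMeasure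
    intro f
    rw [integral_smul_nnreal_measure, h1.re f.continuous, h2.re f.continuous, map_smul,
      inner_smul_left, inner_smul_right, ← mul_assoc, Complex.conj_mul', NNReal.smul_def,
      smul_eq_mul, ← Complex.ofReal_pow, Complex.re_ofReal_mul]
    simp
  rw [key, Measure.smul_apply, hS, smul_zero]

theorem transfer {H : E →L[ℂ] E} {ψ φ : E} {μ ν : Measure ℝ} (h1 : IsSpecMeas H ψ μ)
    (h2 : IsSpecMeas H φ ν) {p q : ℝ → ℝ} (hp : Continuous p) (hq : Continuous q)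
    (h : (cfc p H : E →L[ℂ] E) ψ = (cfc q H : E →L[ℂ] E) φ) :
    μ.withDensity (fun x => ENNReal.ofReal (p x ^ 2)) =
      ν.withDensity (fun x => ENNReal.ofReal (q x ^ 2)) := by
  have key : ∀ {χ : E} {ρ : Measure ℝ} {r : ℝ → ℝ}, IsSpecMeas H χ ρ → Continuous r →
      ∀ f : ℝ → ℝ, Continuous f → ∫ x, f x ∂(ρ.withDensity (fun x => ENNReal.ofReal (r x ^ 2))) =
        (⟪(cfc r H : E →L[ℂ] E) χ, (cfc f H : E →L[ℂ] E) ((cfc r H : E →L[ℂ] E) χ)⟫_ℂ).re := by
    intro χ ρ r hρ hr f hf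
    rw [integral_withDensity_eq_integral_toReal_smul (by fun_prop)
      (Eventually.of_forall fun x => ENNReal.ofReal_lt_top)]
    have e1 : ∀ x, (ENNReal.ofReal (r x ^ 2)).toReal • f x = r x * (f x * r x) := by
      intro x
      rw [ENNReal.toReal_ofReal (sq_nonneg _), smul_eq_mul]
      ring
    simp only [e1]
    rw [hρ.re (f := fun x => r x * (f x * r x)) (hr.mul (hf.mul hr)),
      cfc_mul r (fun x => f x * r x) H hr.continuousOn (hf.mul hr).continuousOn,
      cfc_mul f r H hf.continuousOn hr.continuousOn, sa_inner (cfc_predicate r H)]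
    rfl
  have := isFiniteMeasure_withDensity_ofReal (h1.2 _ (hp.pow 2)).1.2
  have := isFiniteMeasure_withDensity_ofReal (h2.2 _ (hq.pow 2)).1.2
  apply ext_of_forall_integral_eq_of_IsFiniteMeasure
  intro f
  rw [key h1 hp f f.continuous, key h2 hq f f.continuous, h]

/-- `ψ` corresponds to the function `r` in the spectral picture of `φ`, off a countable set. -/
def Rel (H : E →L[ℂ] E) (φ ψ : E) (r : ℝ → ℝ) : Prop :=
  ∃ p q : ℝ → ℝ, Continuous p ∧ Continuous q ∧ ∃ Z : Set ℝ, Z.Countable ∧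
    (∀ x, x ∉ Z → p x ≠ 0 ∧ q x = p x * r x) ∧
    (cfc p H : E →L[ℂ] E) ψ = (cfc q H : E →L[ℂ] E) φ

theorem Rel.self (H : E →L[ℂ] E) (φ : E) : Rel H φ φ (fun _ => 1) :=
  ⟨fun _ => 1, fun _ => 1, continuous_const, continuous_const, ∅, Set.countable_empty,
    fun _ _ => ⟨one_ne_zero, by simp⟩, rfl⟩

theorem Rel.zero (H : E →L[ℂ] E) (φ : E) : Rel H φ 0 (fun _ => 0) :=
  ⟨fun _ => 1, fun _ => 0, continuous_const, continuous_const, ∅, Set.countable_empty,
    fun _ _ => ⟨one_ne_zero, by simp⟩, by simp⟩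

theorem cfc_swap (H : E →L[ℂ] E) {p q : ℝ → ℝ} (hp : Continuous p) (hq : Continuous q) (ψ : E) :
    (cfc (fun x => p x * q x) H : E →L[ℂ] E) ψ =
      (cfc q H : E →L[ℂ] E) ((cfc p H : E →L[ℂ] E) ψ) := by
  have : (fun x => p x * q x) = fun x => q x * p x := by funext x; ring
  rw [this, cfc_mul q p H hq.continuousOn hp.continuousOn]
  rfl

theorem cfc_mul' (H : E →L[ℂ] E) {p q : ℝ → ℝ} (hp : Continuous p) (hq : Continuous q) (ψ : E) :
    (cfc (fun x => p x * q x) H : E →L[ℂ] E) ψ =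
      (cfc p H : E →L[ℂ] E) ((cfc q H : E →L[ℂ] E) ψ) := by
  rw [cfc_mul p q H hp.continuousOn hq.continuousOn]
  rfl

/-- the functional calculus as an operator -/
noncomputable abbrev op (H : E →L[ℂ] E) (f : ℝ → ℝ) : E →L[ℂ] E := cfc f H

theorem op_sub_const {H : E →L[ℂ] E} (hH : IsSelfAdjoint H) (c : ℝ) (ψ : E) :
    op H (fun x => x - c) ψ = H ψ - (c : ℂ) • ψ := by
  unfold op
  rw [cfc_sub (fun x : ℝ => x) (fun _ => c) H continuousOn_id continuousOn_const,
    cfc_id' ℝ H, cfc_const _ H, ContinuousLinearMap.sub_apply,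
    Algebra.algebraMap_eq_smul_one, ContinuousLinearMap.smul_apply, ContinuousLinearMap.one_apply,
    Complex.coe_smul]

theorem op_const {H : E →L[ℂ] E} (hH : IsSelfAdjoint H) (c : ℝ) (ψ : E) :
    op H (fun _ => c) ψ = (c : ℂ) • ψ := by
  unfold op
  rw [cfc_const _ H, Algebra.algebraMap_eq_smul_one, ContinuousLinearMap.smul_apply,
    ContinuousLinearMap.one_apply, Complex.coe_smul]

theorem op_mul_sum (H : E →L[ℂ] E) {ι : Type} [Fintype ι] (c : ℝ) (D : ι → ℝ → ℝ)
    (hD : ∀ i, Continuous (D i)) (ψ : E) :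
    op H (fun x => c * (∑ i, D i) x) ψ = ∑ i, (c : ℂ) • op H (D i) ψ := by
  unfold op
  have h : Continuous (∑ i, D i) := by
    have : (∑ i, D i) = fun x => ∑ i, D i x := by funext x; rw [Finset.sum_apply]
    rw [this]; fun_prop
  rw [cfc_const_mul _ _ H h.continuousOn, cfc_sum_univ D H (fun i => (hD i).continuousOn),
    ContinuousLinearMap.smul_apply, ContinuousLinearMap.sum_apply, Finset.smul_sum]
  simp only [Complex.coe_smul]

theorem Rel.sub {H : E →L[ℂ] E} {φ ψ χ : E} {r r' : ℝ → ℝ} (h : Rel H φ ψ r)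
    (h' : Rel H φ χ r') : Rel H φ (ψ - χ) (fun x => r x - r' x) := by
  obtain ⟨p, q, hp, hq, Z, hZ, h1, h2⟩ := h
  obtain ⟨p', q', hp', hq', Z', hZ', h1', h2'⟩ := h'
  refine ⟨fun x => p x * p' x, fun x => q x * p' x - q' x * p x, hp.mul hp',
    (hq.mul hp').sub (hq'.mul hp), Z ∪ Z', hZ.union hZ', fun x hx => ?_, ?_⟩
  · have a1 := h1 x (fun h => hx (Or.inl h))
    have a2 := h1' x (fun h => hx (Or.inr h))
    refine ⟨mul_ne_zero a1.1 a2.1, ?_⟩
    simp only [a1.2, a2.2]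
    ring
  · rw [cfc_sub (fun x => q x * p' x) (fun x => q' x * p x) H (hq.mul hp').continuousOn
      (hq'.mul hp).continuousOn,
      ContinuousLinearMap.sub_apply, map_sub, cfc_swap H hp hp' ψ, cfc_mul' H hp hp' χ,
      cfc_swap H hq hp', cfc_swap H hq' hp, h2, h2']

theorem Rel.step {H : E →L[ℂ] E} {φ ψ χ : E} {r : ℝ → ℝ} (h : Rel H φ ψ r) {p' q' ρ : ℝ → ℝ}
    (hp' : Continuous p') (hq' : Continuous q') {Z' : Set ℝ} (hZ' : Z'.Countable)
    (h1' : ∀ x, x ∉ Z' → p' x ≠ 0 ∧ q' x = p' x * ρ x)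
    (h2' : (cfc p' H : E →L[ℂ] E) χ = (cfc q' H : E →L[ℂ] E) ψ) :
    Rel H φ χ (fun x => ρ x * r x) := by
  obtain ⟨p, q, hp, hq, Z, hZ, h1, h2⟩ := h
  refine ⟨fun x => p x * p' x, fun x => q' x * q x, hp.mul hp', hq'.mul hq, Z ∪ Z', hZ.union hZ',
    fun x hx => ?_, ?_⟩
  · have a1 := h1 x (fun h => hx (Or.inl h))
    have a2 := h1' x (fun h => hx (Or.inr h))
    refine ⟨mul_ne_zero a1.1 a2.1, ?_⟩
    simp only [a1.2, a2.2]
    ring
  · rw [cfc_mul' H hp hp', h2', cfc_mul' H hq' hq, ← h2, ← cfc_mul' H hp hq', cfc_swap H hp hq']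

theorem Rel.markov {H : E →L[ℂ] E} (hH : IsSelfAdjoint H) {φ ψ : E} {r : ℝ → ℝ} (h : Rel H φ ψ r)
    {ν : Measure ℝ} (hν : IsSpecMeas H φ ν) : ∃ Z : Set ℝ, Z.Countable ∧ ∀ j : ℝ, 0 ≤ j →
      ENNReal.ofReal (j ^ 2) * ν {x | x ∉ Z ∧ j < |r x|} ≤ ENNReal.ofReal (‖ψ‖ ^ 2) := by
  obtain ⟨p, q, hp, hq, Z, hZ, h1, h2⟩ := h
  obtain ⟨μ, hμ⟩ := exists_spec hH ψ
  refine ⟨Z, hZ, fun j hj => ?_⟩
  have key := transfer hμ hν hp hq h2
  set S : Set ℝ := {x | p x ≠ 0 ∧ j * |p x| < |q x|} with hS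
  have hSm : MeasurableSet S :=
    ((isOpen_ne_fun hp continuous_const).inter
      (isOpen_lt (continuous_const.mul hp.abs) hq.abs)).measurableSet
  have hsub : {x | x ∉ Z ∧ j < |r x|} ⊆ S := by
    intro x hx
    have a1 := h1 x hx.1
    refine ⟨a1.1, ?_⟩
    rw [a1.2, abs_mul, mul_comm]
    exact mul_lt_mul_of_pos_left hx.2 (abs_pos.2 a1.1)
  have hg : Measurable (fun x => ENNReal.ofReal ((p x ^ 2)⁻¹)) :=
    ((hp.measurable.pow_const 2).inv).ennreal_ofReal
  have e1 := setLIntegral_withDensity_eq_setLIntegral_mul μ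
    (f := fun x => ENNReal.ofReal (p x ^ 2)) (by fun_prop) hg hSm
  have e2 := setLIntegral_withDensity_eq_setLIntegral_mul ν
    (f := fun x => ENNReal.ofReal (q x ^ 2)) (by fun_prop) hg hSm
  rw [key, e2] at e1
  calc ENNReal.ofReal (j ^ 2) * ν {x | x ∉ Z ∧ j < |r x|}
      ≤ ENNReal.ofReal (j ^ 2) * ν S := by gcongr
    _ = ∫⁻ _ in S, ENNReal.ofReal (j ^ 2) ∂ν := by rw [setLIntegral_const]
    _ ≤ ∫⁻ x in S, ((fun x => ENNReal.ofReal (q x ^ 2)) *
          fun x => ENNReal.ofReal ((p x ^ 2)⁻¹)) x ∂ν := by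
        refine setLIntegral_mono' hSm fun x hx => ?_
        simp only [Pi.mul_apply]
        rw [← ENNReal.ofReal_mul (sq_nonneg _)]
        apply ENNReal.ofReal_le_ofReal
        have b1 : 0 < p x ^ 2 := by have := hx.1; positivity
        rw [← div_eq_mul_inv, le_div_iff₀ b1]
        have b2 := pow_le_pow_left₀ (by positivity) hx.2.le 2
        rwa [mul_pow, sq_abs, sq_abs] at b2
    _ = _ := e1
    _ ≤ ∫⁻ _ in S, 1 ∂μ := by
        refine setLIntegral_mono' hSm fun x hx => ?_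
        simp only [Pi.mul_apply]
        have b1 : 0 < p x ^ 2 := by have := hx.1; positivity
        rw [← ENNReal.ofReal_mul (sq_nonneg _), mul_inv_cancel₀ b1.ne']
        simp
    _ ≤ μ Set.univ := by
        rw [setLIntegral_const, one_mul]
        exact measure_mono (Set.subset_univ _)
    _ = _ := hμ.univ hH

theorem Rel.null {H : E →L[ℂ] E} {φ ψ : E} {r : ℝ → ℝ} (h : Rel H φ ψ r)
    {μ ν : Measure ℝ} (hν : IsSpecMeas H φ ν) (hμ : IsSpecMeas H ψ μ) {S : Set ℝ} (hS : ν S = 0) :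
    ∃ Z : Set ℝ, Z.Countable ∧ μ (S \ Z) = 0 := by
  obtain ⟨p, q, hp, hq, Z, hZ, h1, h2⟩ := h
  refine ⟨Z, hZ, ?_⟩
  have key := transfer hμ hν hp hq h2
  have e1 : ν.withDensity (fun x => ENNReal.ofReal (q x ^ 2)) S = 0 :=
    withDensity_absolutelyContinuous _ _ hS
  rw [← key, withDensity_apply_eq_zero (by fun_prop)] at e1
  refine measure_mono_null (fun x hx => Set.mem_inter ?_ hx.1) e1
  have b1 : 0 < p x ^ 2 := by have := (h1 x hx.2).1; positivity
  exact (ENNReal.ofReal_pos.2 b1).ne'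

/-- A set that is null for the spectral measures of the terms of a series is null for the sum. -/
theorem null_of_hasSum {H : E →L[ℂ] E} (hH : IsSelfAdjoint H) {ι : Type} (e : ι → E) (ψ : E)
    (h : HasSum e ψ) (S : Set ℝ) (he : ∀ i μ, IsSpecMeas H (e i) μ → μ S = 0) (μ : Measure ℝ)
    (hμ : IsSpecMeas H ψ μ) : μ S = 0 := by
  classical
  have h1 : ∀ F : Finset ι, ∀ ρ, IsSpecMeas H (∑ i ∈ F, e i) ρ → ρ S = 0 := by
    intro F
    induction F using Finset.induction_on with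
    | empty =>
      intro ρ hρ
      have := hρ.univ hH
      simp only [Finset.sum_empty, norm_zero] at this
      refine measure_mono_null (Set.subset_univ _) ?_
      rw [this]; simp
    | insert i F hi ih =>
      intro ρ hρ
      rw [Finset.sum_insert hi] at hρ
      obtain ⟨a, ha⟩ := exists_spec hH (e i)
      obtain ⟨b, hb⟩ := exists_spec hH (∑ i ∈ F, e i)
      have := IsSpecMeas.add_le hH ha hb hρ S
      rw [he i a ha, ih b hb] at this
      simpa using this
  have h2 : ∀ F : Finset ι, μ S ≤ 2 * ENNReal.ofReal (‖ψ - ∑ i ∈ F, e i‖ ^ 2) := by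
    intro F
    obtain ⟨a, ha⟩ := exists_spec hH (∑ i ∈ F, e i)
    obtain ⟨b, hb⟩ := exists_spec hH (ψ - ∑ i ∈ F, e i)
    have := IsSpecMeas.add_le hH ha hb (by rwa [add_sub_cancel]) S
    rw [h1 F a ha, mul_zero, zero_add] at this
    refine this.trans ?_
    rw [← hb.univ hH]
    gcongr
    exact Set.subset_univ _
  have h3 : Tendsto (fun F : Finset ι => 2 * ENNReal.ofReal (‖ψ - ∑ i ∈ F, e i‖ ^ 2)) atTop
      (𝓝 (2 * ENNReal.ofReal (‖ψ - ψ‖ ^ 2))) := by
    refine ENNReal.Tendsto.const_mul (ENNReal.tendsto_ofReal ?_) (Or.inr (by simp))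
    exact ((tendsto_const_nhds.sub h).norm).pow 2
  have h4 := ge_of_tendsto' h3 h2
  simpa using h4

end Pool.Agent.H514Z.AT
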