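import Pool.Agent.H514Z.AT.Op
import Pool.Agent.H514Z.AT.Spec
import Pool.Agent.H514Z.AT.Boole
import Pool.Agent.H514Z.AT.Plane

/-!
# Growth of the transfer matrices forces singular spectrum
-/

set_option autoImplicit false
set_option linter.unusedSectionVars false
set_option linter.style.longLine false
set_option linter.deprecated false

namespace Pool.Agent.H514Z.AT

open MeasureTheory Filter Topology
open scoped InnerProductSpace ENNReal

variable {s : ℕ → ℕ}

/-- the shell average of the diagonal resolvent -/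
noncomputable def Yf (s : ℕ → ℕ) (lam : ℝ) (v : Vtx s → ℝ) (E : ℝ) (n : ℕ) : ℝ :=
  (∑ i : Fin (s n), (E - lam * v ⟨n, i⟩)⁻¹) / s n

/-- the effective coefficient of the shell recursion -/
noncomputable def Vf (s : ℕ → ℕ) (lam : ℝ) (v : Vtx s → ℝ) (E : ℝ) (n : ℕ) : ℝ :=
  (Yf s lam v E n)⁻¹

theorem Yf_finite (hs : ∀ n, 0 < s n) (lam : ℝ) (v : Vtx s → ℝ) (n : ℕ) :
    {E : ℝ | Yf s lam v E n = 0}.Finite := by
  refine (finite_zero (hs n) (fun i => lam * v ⟨n, i⟩)).subset fun E hE => ?_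
  have h0 : (s n : ℝ) ≠ 0 := by exact_mod_cast (hs n).ne'
  exact (div_eq_zero_iff.1 hE).resolve_right h0

open Classical in
/-- unit vector at a vertex -/
noncomputable def del (x : Vtx s) : L2 s := lp.single 2 x (1 : ℂ)

/-- the normalising constant of a shell -/
noncomputable def cs (s : ℕ → ℕ) (n : ℕ) : ℂ := (((√(s n : ℝ))⁻¹ : ℝ) : ℂ)

/-- the normalised indicator of a shell -/
noncomputable def phi (s : ℕ → ℕ) (n : ℕ) : L2 s := ∑ i : Fin (s n), cs s n • del ⟨n, i⟩

/-- the normalised indicator of the previous shell -/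
noncomputable def prev (s : ℕ → ℕ) : ℕ → L2 s
  | 0 => 0
  | n + 1 => phi s n

open Classical in
theorem del_apply (x y : Vtx s) : del x y = if y = x then 1 else 0 := by
  unfold del
  rw [lp.single_apply, Pi.single_apply]

theorem phi_apply (m : ℕ) (y : Vtx s) : phi s m y = if y.1 = m then cs s m else 0 := by
  classical
  unfold phi
  rw [lp.coeFn_sum, Finset.sum_apply]
  simp only [lp.coeFn_smul, Pi.smul_apply, del_apply, smul_eq_mul]
  obtain ⟨n, j⟩ := y
  by_cases h : n = m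
  · subst h
    rw [Finset.sum_eq_single j]
    · simp
    · intro i _ hij
      rw [if_neg, mul_zero]
      intro h
      exact hij (eq_of_heq (Sigma.mk.inj h).2).symm
    · intro h; exact absurd (Finset.mem_univ j) h
  · rw [if_neg h]
    refine Finset.sum_eq_zero fun i _ => ?_
    rw [if_neg, mul_zero]
    intro h'
    exact h (Sigma.mk.inj h').1

theorem cs_mul (n : ℕ) : cs s n * cs s n = (((s n : ℝ)⁻¹ : ℝ) : ℂ) := by
  unfold cs
  rw [← Complex.ofReal_mul, ← mul_inv, Real.mul_self_sqrt (Nat.cast_nonneg _)]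

theorem phi_norm (hs : ∀ n, 0 < s n) (n : ℕ) : ‖phi s n‖ ^ 2 = 1 := by
  classical
  have h0 : (s n : ℂ) ≠ 0 := by exact_mod_cast (hs n).ne'
  have h1 : ⟪phi s n, phi s n⟫_ℂ = 1 := by
    conv_lhs => arg 2; unfold phi
    rw [sum_inner]
    have : ∀ i : Fin (s n), ⟪cs s n • del (⟨n, i⟩ : Vtx s), phi s n⟫_ℂ = (s n : ℂ)⁻¹ := by
      intro i
      rw [inner_smul_left, del, lp.inner_single_left, phi_apply, if_pos rfl]
      have h2 : (starRingEnd ℂ) (cs s n) = cs s n := Complex.conj_ofReal _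
      rw [h2]
      simp [cs_mul]
    simp only [this, Finset.sum_const, Finset.card_univ, Fintype.card_fin, nsmul_eq_mul]
    exact mul_inv_cancel₀ h0
  have h2 : (⟪phi s n, phi s n⟫_ℂ).re = ‖phi s n‖ ^ 2 := inner_self_eq_norm_sq (𝕜 := ℂ) _
  rw [← h2, h1, Complex.one_re]

theorem prev_norm (hs : ∀ n, 0 < s n) (n : ℕ) : ‖prev s n‖ ^ 2 ≤ 1 := by
  cases n with
  | zero => simp [prev]
  | succ n => exact (phi_norm hs n).le

theorem H_del {lam : ℝ} {v : Vtx s → ℝ} {H : L2 s →L[ℂ] L2 s} (hH : IsAnderson s lam v H)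
    (x : Vtx s) :
    H (del x) = cs s x.1 • (phi s (x.1 + 1) + prev s x.1) + ((lam * v x : ℝ) : ℂ) • del x := by
  classical
  ext y
  rw [hH, tsum_eq_single x (fun z hz => by rw [del_apply, if_neg hz, mul_zero])]
  simp only [lp.coeFn_add, lp.coeFn_smul, Pi.add_apply, Pi.smul_apply, smul_eq_mul, del_apply,
    if_true, mul_one, phi_apply]
  congr 1
  · have hw : ∀ a b : ℕ, (((1 / √((s a : ℝ) * (s b : ℝ)) : ℝ)) : ℂ) = cs s b * cs s a := by
      intro a b
      unfold cs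
      rw [← Complex.ofReal_mul, Real.sqrt_mul (Nat.cast_nonneg _), one_div, mul_inv, mul_comm]
    obtain ⟨n, i⟩ := x
    obtain ⟨m, j⟩ := y
    unfold weight
    simp only
    by_cases h1 : m = n + 1
    · subst h1
      have h2 : prev s n ⟨n + 1, j⟩ = 0 := by
        cases n with
        | zero => rfl
        | succ n => rw [prev, phi_apply, if_neg (by simp only; omega)]
      rw [if_pos (Or.inr rfl), if_pos rfl, h2, add_zero, hw]
    · rw [if_neg h1, zero_add]
      by_cases h3 : n = m + 1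
      · subst h3
        rw [if_pos (Or.inl rfl), prev, phi_apply, if_pos rfl, hw]
      · rw [if_neg (by omega)]
        have h2 : prev s n ⟨m, j⟩ = 0 := by
          cases n with
          | zero => rfl
          | succ n => rw [prev, phi_apply, if_neg (by simp only; omega)]
        rw [h2]; simp
  · split_ifs with h
    · rw [h]
    · simp

theorem cfc_del {lam : ℝ} {v : Vtx s → ℝ} {H : L2 s →L[ℂ] L2 s} (hH : IsAnderson s lam v H)
    (hsa : IsSelfAdjoint H) (x : Vtx s) :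
    op H (fun E : ℝ => E - lam * v x) (del x) = cs s x.1 • (phi s (x.1 + 1) + prev s x.1) := by
  rw [op_sub_const hsa, H_del hH, add_sub_cancel_right]

theorem rel_chi (hs : ∀ n, 0 < s n) {lam : ℝ} {v : Vtx s → ℝ} {H : L2 s →L[ℂ] L2 s}
    (hH : IsAnderson s lam v H) (hsa : IsSelfAdjoint H) (n : ℕ) {φ : L2 s} {r : ℝ → ℝ}
    (h : Rel H φ (phi s n) r) :
    Rel H φ (phi s (n + 1) + prev s n) (fun E => Vf s lam v E n * r E) := by
  classical
  set a : Fin (s n) → ℝ := fun i => lam * v ⟨n, i⟩ with ha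
  set D : Fin (s n) → ℝ → ℝ := fun i E => ∏ j ∈ Finset.univ.erase i, (E - a j) with hD
  have hDc : ∀ i, Continuous (D i) := fun i => by
    rw [hD]; fun_prop
  have h0 : (s n : ℝ) ≠ 0 := by exact_mod_cast (hs n).ne'
  refine h.step (p' := fun E => (s n : ℝ)⁻¹ * (∑ i, D i) E) (q' := fun E => ∏ j, (E - a j))
    (by simp only [Finset.sum_apply]; fun_prop) (by fun_prop)
    (((Set.finite_range a).union (Yf_finite hs lam v n)).countable) (fun E hE => ?_) ?_
  · have h1 : ∀ i, E - a i ≠ 0 := fun i hi => hE (Or.inl ⟨i, (sub_eq_zero.1 hi).symm⟩)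
    have h2 : Yf s lam v E n ≠ 0 := fun hi => hE (Or.inr hi)
    have h3 : (s n : ℝ)⁻¹ * (∑ i, D i) E = (∏ j, (E - a j)) * Yf s lam v E n := by
      unfold Yf
      rw [Finset.sum_apply, mul_div_assoc', Finset.mul_sum, Finset.mul_sum, Finset.sum_div]
      refine Finset.sum_congr rfl fun i _ => ?_
      rw [← Finset.mul_prod_erase Finset.univ _ (Finset.mem_univ i)]
      have := h1 i
      simp only [hD, ha] at this ⊢
      field_simp
    simp only [h3, Vf]
    refine ⟨mul_ne_zero (Finset.prod_ne_zero_iff.2 fun i _ => h1 i) h2, ?_⟩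
    field_simp
  · rw [op_mul_sum H _ D hDc]
    conv_rhs => unfold phi
    rw [map_sum]
    refine Finset.sum_congr rfl fun i _ => ?_
    have h4 : (fun E => ∏ j, (E - a j)) = fun E => D i E * (E - lam * v ⟨n, i⟩) := by
      funext E
      rw [← Finset.prod_erase_mul Finset.univ _ (Finset.mem_univ i)]
    rw [h4, map_smul, cfc_mul' H (hDc i) (by fun_prop), cfc_del hH hsa, map_smul, smul_smul,
      cs_mul]

theorem rel_tm (hs : ∀ n, 0 < s n) {lam : ℝ} {v : Vtx s → ℝ} {H : L2 s →L[ℂ] L2 s}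
    (hH : IsAnderson s lam v H) (hsa : IsSelfAdjoint H) (n : ℕ) :
    Rel H (phi s 0) (prev s n) (fun E => (tm (Vf s lam v E) n (0, 1)).1) ∧
    Rel H (phi s 0) (phi s n) (fun E => (tm (Vf s lam v E) n (0, 1)).2) := by
  induction n with
  | zero => exact ⟨Rel.zero H _, Rel.self H _⟩
  | succ n ih =>
    refine ⟨ih.2, ?_⟩
    have h := (rel_chi hs hH hsa n ih.2).sub ih.1
    rw [add_sub_cancel_right] at h
    exact h

theorem rel_del (hs : ∀ n, 0 < s n) {lam : ℝ} {v : Vtx s → ℝ} {H : L2 s →L[ℂ] L2 s}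
    (hH : IsAnderson s lam v H) (hsa : IsSelfAdjoint H) (x : Vtx s) :
    ∃ r, Rel H (phi s 0) (del x) r := by
  have h := rel_chi hs hH hsa x.1 (rel_tm hs hH hsa x.1).2
  refine ⟨_, h.step (p' := fun E => E - lam * v x) (q' := fun _ => (√(s x.1 : ℝ))⁻¹)
    (ρ := fun E => (E - lam * v x)⁻¹ * (√(s x.1 : ℝ))⁻¹) (by fun_prop) continuous_const
    (Set.countable_singleton (lam * v x)) (fun E hE => ?_) ?_⟩
  · have h1 : E - lam * v x ≠ 0 := sub_ne_zero.2 hE
    refine ⟨h1, ?_⟩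
    rw [← mul_assoc, mul_inv_cancel₀ h1, one_mul]
  · rw [cfc_del hH hsa, op_const hsa, cs]

theorem det_sing (hs : ∀ n, 0 < s n) {lam : ℝ} {v : Vtx s → ℝ} {H : L2 s →L[ℂ] L2 s}
    (hH : IsAnderson s lam v H) (hsa : IsSelfAdjoint H) (N : ℕ → ℕ)
    (h : ∀ᵐ E ∂(volume : Measure ℝ), ∀ᶠ j : ℕ in atTop,
      (j : ℝ) < ‖tm (Vf s lam v E) (N j) (0, 1)‖) (ψ : L2 s) (μ : Measure ℝ)
    (hμ : IsSpecMeas H ψ μ) : μ ⟂ₘ volume := by
  classical
  obtain ⟨ν, hν⟩ := exists_spec hsa (phi s 0)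
  choose Z1 hZ1 hM1 using fun n => (rel_tm hs hH hsa n).1.markov hsa hν
  choose Z2 hZ2 hM2 using fun n => (rel_tm hs hH hsa n).2.markov hsa hν
  set T : Set ℝ := {E | ∀ᶠ j : ℕ in atTop, (j : ℝ) < ‖tm (Vf s lam v E) (N j) (0, 1)‖} with hT
  set Z : Set ℝ := ⋃ n, (Z1 n ∪ Z2 n) with hZ
  have hZc : Z.Countable := Set.countable_iUnion fun n => (hZ1 n).union (hZ2 n)
  have hνT : ν (T \ Z) = 0 := by
    have hsub : T \ Z ⊆ ⋃ J : ℕ,
        {E | E ∉ Z ∧ ∀ j : ℕ, J ≤ j → (j : ℝ) < ‖tm (Vf s lam v E) (N j) (0, 1)‖} := by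
      intro E hE
      obtain ⟨J, hJ⟩ := eventually_atTop.1 hE.1
      exact Set.mem_iUnion.2 ⟨J, hE.2, hJ⟩
    refine measure_mono_null hsub (measure_iUnion_null fun J => ?_)
    set S := {E | E ∉ Z ∧ ∀ j : ℕ, J ≤ j → (j : ℝ) < ‖tm (Vf s lam v E) (N j) (0, 1)‖} with hS
    by_contra hne
    have hb : ∀ j : ℕ, J ≤ j → ENNReal.ofReal ((j : ℝ) ^ 2) * ν S ≤ 2 := by
      intro j hj
      have hsub2 : S ⊆ {E | E ∉ Z1 (N j) ∧ (j : ℝ) < |(tm (Vf s lam v E) (N j) (0, 1)).1|} ∪
          {E | E ∉ Z2 (N j) ∧ (j : ℝ) < |(tm (Vf s lam v E) (N j) (0, 1)).2|} := by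
        intro E hE
        have h1 := hE.2 j hj
        rw [Prod.norm_def, lt_max_iff] at h1
        rcases h1 with h1 | h1
        · exact Or.inl ⟨fun hz => hE.1 (Set.mem_iUnion.2 ⟨_, Or.inl hz⟩), h1⟩
        · exact Or.inr ⟨fun hz => hE.1 (Set.mem_iUnion.2 ⟨_, Or.inr hz⟩), h1⟩
      have h2 := (measure_mono (μ := ν) hsub2).trans (measure_union_le _ _)
      have h3 := (hM1 (N j) j (Nat.cast_nonneg j)).trans
        (ENNReal.ofReal_le_ofReal (prev_norm hs (N j)))
      have h4 := hM2 (N j) j (Nat.cast_nonneg j)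
      rw [phi_norm hs] at h4
      rw [ENNReal.ofReal_one] at h3 h4
      calc _ ≤ _ := mul_le_mul_right h2 _
        _ = _ := mul_add _ _ _
        _ ≤ 1 + 1 := add_le_add h3 h4
        _ = 2 := one_add_one_eq_two
    have ht : Tendsto (fun j : ℕ => ENNReal.ofReal ((j : ℝ) ^ 2) * ν S) atTop (𝓝 (∞ * ν S)) := by
      refine ENNReal.Tendsto.mul_const ?_ (Or.inl ENNReal.top_ne_zero)
      exact ENNReal.tendsto_ofReal_atTop.comp
        ((tendsto_pow_atTop two_ne_zero).comp tendsto_natCast_atTop_atTop)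
    rw [ENNReal.top_mul hne] at ht
    have := le_of_tendsto ht (eventually_atTop.2 ⟨J, hb⟩)
    simp at this
  choose r hr using rel_del hs hH hsa
  choose ρ hρ using fun x : Vtx s => exists_spec hsa (del x)
  choose Z3 hZ3 hN3 using fun x : Vtx s => (hr x).null hν (hρ x) hνT
  set S : Set ℝ := (T \ Z) \ ⋃ x, Z3 x with hS
  have hμS : μ S = 0 := by
    refine null_of_hasSum hsa (fun x => ψ x • del x) ψ ?_ S (fun x μ' hμ' => ?_) μ hμ
    · have := lp.hasSum_single (p := 2) (by simp) ψ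
      convert this using 2 with x
      unfold del
      rw [← lp.single_smul, smul_eq_mul, mul_one]
    · refine (hρ x).smul_null hμ' S (measure_mono_null ?_ (hN3 x))
      exact Set.diff_subset_diff_right (Set.subset_iUnion _ x)
  refine Measure.MutuallySingular.mk hμS (t := Sᶜ) ?_ (by simp)
  have hc : (Z ∪ ⋃ x, Z3 x).Countable := hZc.union (Set.countable_iUnion hZ3)
  have hsub : Sᶜ ⊆ Tᶜ ∪ (Z ∪ ⋃ x, Z3 x) := by
    intro E hE
    by_contra hcon
    simp only [Set.mem_union, not_or, Set.mem_compl_iff, not_not] at hcon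
    exact hE ⟨⟨hcon.1, hcon.2.1⟩, hcon.2.2⟩
  exact measure_mono_null hsub (measure_union_null h (hc.measure_zero _))

end Pool.Agent.H514Z.AT
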